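import Mathlib
import Pool.Agent.TH228.J1593
set_option autoImplicit false

/-! Finner type interpolation of mixed norm bounds: mixed norms of the interpolating functions. -/

namespace Pool.Agent.TH278.FN

open MeasureTheory Set
open scoped ENNReal

/-- integral over the coordinates in `s` -/
noncomputable abbrev mg {n : ℕ} (s : Finset (Fin n)) (f : (Fin n → ℝ) → ℝ≥0∞) :
    (Fin n → ℝ) → ℝ≥0∞ :=
  ∫⋯∫⁻_s, f ∂(fun _ => (volume : Measure ℝ))

theorem mg_dep {n : ℕ} (s T : Finset (Fin n)) (f : (Fin n → ℝ) → ℝ≥0∞) (hd : DependsOn f T) :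
    DependsOn (mg s f) (T \ s : Finset (Fin n)) := by
  intro x y hxy
  unfold mg lmarginal
  congr 1
  ext z
  apply hd
  intro k hk
  unfold Function.updateFinset
  split_ifs with h
  · rfl
  · apply hxy
    simp only [Finset.coe_sdiff, mem_sdiff, Finset.mem_coe] at hk ⊢
    exact ⟨hk, h⟩

theorem mg_const {n : ℕ} (T : Finset (Fin n)) (f : (Fin n → ℝ) → ℝ≥0∞) (hd : DependsOn f T)
    (x y : Fin n → ℝ) : mg T f x = mg T f y := by
  apply mg_dep T T f hd
  intro i hi
  simp at hi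

/-- a factor that does not depend on the coordinates of `s` comes out -/
theorem mg_mul {n : ℕ} (s : Finset (Fin n)) (T : Finset (Fin n)) (g f : (Fin n → ℝ) → ℝ≥0∞)
    (hd : DependsOn g T) (hT : Disjoint s T) (hf : Measurable f) (x : Fin n → ℝ) :
    mg s (fun x => g x * f x) x = g x * mg s f x := by
  unfold mg lmarginal
  rw [← lintegral_const_mul]
  · congr 1
    ext z
    show g _ * f _ = g x * f _
    congr 1
    apply hd
    intro k hk
    unfold Function.updateFinset
    split_ifs with h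
    · exact absurd hk (Finset.disjoint_left.1 hT h)
    · rfl
  · exact hf.comp measurable_updateFinset

theorem mg_mono {n : ℕ} (s : Finset (Fin n)) {g f : (Fin n → ℝ) → ℝ≥0∞} (h : ∀ x, g x ≤ f x)
    (x : Fin n → ℝ) : mg s g x ≤ mg s f x :=
  lmarginal_mono (s := s) (μ := fun _ => (volume : Measure ℝ)) (fun x => h x) x

theorem mixed_le {n : ℕ} {ι : Type*} [DecidableEq ι] (P : Finset ι) (S : ι → Finset (Fin n))
    (w : ι → ℝ) (f : ι → (Fin n → ℝ) → ℝ≥0∞) (hm : ∀ j ∈ P, Measurable (f j))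
    (hd : ∀ j ∈ P, DependsOn (f j) (S j)) (hw : ∀ j ∈ P, 0 ≤ w j)
    (hcov : ∀ i, ∑ j ∈ P with i ∈ S j, w j = 1) (c : ι) (hc : c ∈ P) (p ρ : ℝ) (hp : 0 < p)
    (hpρ : p ≤ ρ) (x : Fin n → ℝ) :
    mg (S c) (fun x => (mg (S c)ᶜ (fun x =>
      ((∏ j ∈ P, f j x ^ (w j / ρ)) * f c x ^ (1 / p - 1 / ρ)) ^ ρ) x) ^ (p / ρ)) x ≤
    (∏ j ∈ P, mg (S j) (f j) x ^ (w j * (p / ρ))) * mg (S c) (f c) x ^ (1 - p / ρ) := by
  have hρ : 0 < ρ := hp.trans_le hpρ
  have hpρ1 : p / ρ ≤ 1 := (div_le_one hρ).2 hpρ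
  have hpρ0 : 0 ≤ p / ρ := by positivity
  have e0 : 0 ≤ 1 / p - 1 / ρ := by
    rw [sub_nonneg]; exact one_div_le_one_div_of_le hp hpρ
  have e1 : ∀ x, ((∏ j ∈ P, f j x ^ (w j / ρ)) * f c x ^ (1 / p - 1 / ρ)) ^ ρ =
      f c x ^ (ρ / p - 1) * ∏ j ∈ P, f j x ^ w j := by
    intro x
    rw [ENNReal.mul_rpow_of_nonneg _ _ hρ.le, mul_comm]
    congr 1
    · rw [← ENNReal.rpow_mul]
      congr 1
      field_simp
    · rw [← ENNReal.prod_rpow_of_nonneg hρ.le]
      refine Finset.prod_congr rfl fun j _ => ?_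
      rw [← ENNReal.rpow_mul, div_mul_cancel₀ _ hρ.ne']
  have hmp : Measurable fun x => ∏ j ∈ P, f j x ^ w j :=
    Finset.measurable_fun_prod P fun j hj => (hm j hj).pow_const _
  -- inner marginal
  set G : ι → (Fin n → ℝ) → ℝ≥0∞ := fun j => mg ((S c)ᶜ ∩ S j) (f j) with hG
  have hGm : ∀ j ∈ P, Measurable (G j) := fun j hj => (hm j hj).lmarginal _
  have hGc : G c = f c := by
    simp only [hG, mg]
    have : (S c)ᶜ ∩ S c = ∅ := by
      ext i
      simp
    rw [this, lmarginal_empty]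
  have hGd : ∀ j ∈ P, DependsOn (G j) (S j) := fun j hj =>
    (mg_dep _ _ _ (hd j hj)).mono (by
      intro i hi
      simp only [Finset.coe_sdiff, mem_sdiff] at hi
      exact hi.1)
  have h1 : ∀ x, (mg (S c)ᶜ (fun x =>
      ((∏ j ∈ P, f j x ^ (w j / ρ)) * f c x ^ (1 / p - 1 / ρ)) ^ ρ) x) ^ (p / ρ) ≤
      ∏ j ∈ P, G j x ^ (w j * (p / ρ) + if j = c then 1 - p / ρ else 0) := by
    intro x
    have h2 : mg (S c)ᶜ (fun x =>
      ((∏ j ∈ P, f j x ^ (w j / ρ)) * f c x ^ (1 / p - 1 / ρ)) ^ ρ) x ≤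
      f c x ^ (ρ / p - 1) * ∏ j ∈ P, G j x ^ w j := by
      simp_rw [e1]
      rw [mg_mul (S c)ᶜ (S c) (fun x => f c x ^ (ρ / p - 1)) _ _ disjoint_compl_left hmp]
      · gcongr
        exact finner P S w f hm hd hw (S c)ᶜ (fun i _ => hcov i) x
      · intro a b hab
        simp only
        rw [hd c hc hab]
    calc _ ≤ (f c x ^ (ρ / p - 1) * ∏ j ∈ P, G j x ^ w j) ^ (p / ρ) := by gcongr
      _ = (∏ j ∈ P, G j x ^ (w j * (p / ρ))) * f c x ^ (1 - p / ρ) := by
        rw [ENNReal.mul_rpow_of_nonneg _ _ hpρ0, mul_comm]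
        congr 1
        · rw [← ENNReal.prod_rpow_of_nonneg hpρ0]
          refine Finset.prod_congr rfl fun j _ => ?_
          rw [← ENNReal.rpow_mul]
        · rw [← ENNReal.rpow_mul]
          congr 1
          field_simp
      _ = _ := by
        have h3 : f c x ^ (1 - p / ρ) = ∏ j ∈ P, G j x ^ (if j = c then 1 - p / ρ else 0) := by
          rw [Finset.prod_eq_single_of_mem c hc]
          · rw [if_pos rfl, hGc]
          · intro j _ hj
            rw [if_neg hj, ENNReal.rpow_zero]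
        rw [h3, ← Finset.prod_mul_distrib]
        refine Finset.prod_congr rfl fun j hj => ?_
        rw [← ENNReal.rpow_add_of_nonneg]
        · exact mul_nonneg (hw j hj) hpρ0
        · split_ifs
          · linarith
          · exact le_rfl
  refine (mg_mono (S c) h1 x).trans ?_
  have hw' : ∀ j ∈ P, 0 ≤ w j * (p / ρ) + if j = c then 1 - p / ρ else 0 := by
    intro j hj
    have := mul_nonneg (hw j hj) hpρ0
    split_ifs
    · linarith
    · linarith
  have h4 := finner P S (fun j => w j * (p / ρ) + if j = c then 1 - p / ρ else 0) G hGm hGd hw'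
    (S c) (by
      intro i hi
      rw [Finset.sum_add_distrib, ← Finset.sum_mul, hcov i, one_mul]
      have h5 : ∑ j ∈ P with i ∈ S j, (if j = c then 1 - p / ρ else 0) = 1 - p / ρ := by
        rw [Finset.sum_ite_eq' (P.filter fun j => i ∈ S j) c (fun _ => 1 - p / ρ)]
        rw [if_pos]
        rw [Finset.mem_filter]
        exact ⟨hc, hi⟩
      rw [h5]
      ring) x
  refine h4.trans (le_of_eq ?_)
  have h6 : ∀ j ∈ P, mg (S c ∩ S j) (G j) x = mg (S j) (f j) x := by
    intro j hj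
    have hdj : Disjoint (S c ∩ S j) ((S c)ᶜ ∩ S j) := by
      rw [Finset.disjoint_left]
      intro i hi hi2
      simp only [Finset.mem_inter, Finset.mem_compl] at hi hi2
      exact hi2.1 hi.1
    have hun : (S c ∩ S j) ∪ ((S c)ᶜ ∩ S j) = S j := by
      ext i
      simp only [Finset.mem_union, Finset.mem_inter, Finset.mem_compl]
      tauto
    simp only [hG, mg]
    rw [← lmarginal_union _ _ (hm j hj) hdj, hun]
  calc ∏ j ∈ P, (mg (S c ∩ S j) (G j) x) ^ (w j * (p / ρ) + if j = c then 1 - p / ρ else 0)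
      = ∏ j ∈ P, (mg (S j) (f j) x ^ (w j * (p / ρ)) *
          mg (S j) (f j) x ^ (if j = c then 1 - p / ρ else 0)) := by
        refine Finset.prod_congr rfl fun j hj => ?_
        rw [h6 j hj, ← ENNReal.rpow_add_of_nonneg]
        · exact mul_nonneg (hw j hj) hpρ0
        · split_ifs
          · linarith
          · exact le_rfl
    _ = _ := by
        rw [Finset.prod_mul_distrib]
        congr 1
        rw [Finset.prod_eq_single_of_mem c hc]
        · rw [if_pos rfl]
        · intro j _ hj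
          rw [if_neg hj, ENNReal.rpow_zero]

end Pool.Agent.TH278.FN
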