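import Mathlib
import Pool.Agent.TH278.FN.Abs
set_option autoImplicit false

/-! Finner type interpolation of mixed norm bounds: Hoelder's inequality. -/

namespace Pool.Agent.TH278.FN

open MeasureTheory Set
open scoped ENNReal

theorem alg {ι : Type*} (P : Finset ι) (w a ε θ : ι → ℝ) (θ0 lam b : ℝ)
    (hw : ∀ j ∈ P, 0 ≤ w j) (ha : ∀ j ∈ P, 0 ≤ a j) (hε : ∀ j ∈ P, 0 ≤ ε j)
    (hθ : ∀ j ∈ P, 0 ≤ θ j) (hθ0 : 0 ≤ θ0) (hlam : 0 ≤ lam)
    (hsum : θ0 + ∑ j ∈ P, θ j = 1) (hεθ : ∀ j ∈ P, ε j * θ j = lam * w j)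
    (hb : θ0 + ∑ j ∈ P, a j * θ j + lam = b) (X : ι → ℝ≥0∞) (Y : ℝ≥0∞) :
    (Y * ∏ i ∈ P, X i ^ w i) ^ θ0 *
      ∏ j ∈ P, (Y * ((∏ i ∈ P, X i ^ (w i * a j)) * X j ^ ε j)) ^ θ j =
    Y * ∏ i ∈ P, X i ^ (w i * b) := by
  have h1 : ∀ j ∈ P, (Y * ((∏ i ∈ P, X i ^ (w i * a j)) * X j ^ ε j)) ^ θ j =
      Y ^ θ j * ((∏ i ∈ P, X i ^ (w i * (a j * θ j))) * X j ^ (lam * w j)) := by
    intro j hj
    rw [ENNReal.mul_rpow_of_nonneg _ _ (hθ j hj), ENNReal.mul_rpow_of_nonneg _ _ (hθ j hj),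
      ← ENNReal.prod_rpow_of_nonneg (hθ j hj), ← ENNReal.rpow_mul, hεθ j hj]
    congr 2
    refine Finset.prod_congr rfl fun i _ => ?_
    rw [← ENNReal.rpow_mul, mul_assoc]
  rw [Finset.prod_congr rfl h1, Finset.prod_mul_distrib, Finset.prod_mul_distrib,
    ENNReal.mul_rpow_of_nonneg _ _ hθ0, ← ENNReal.prod_rpow_of_nonneg hθ0]
  have h2 : ∏ j ∈ P, Y ^ θ j = Y ^ ∑ j ∈ P, θ j := by
    classical
    have : ∀ Q : Finset ι, Q ⊆ P → ∏ j ∈ Q, Y ^ θ j = Y ^ ∑ j ∈ Q, θ j := by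
      intro Q
      induction Q using Finset.induction_on with
      | empty => simp
      | insert j Q hj ih =>
        intro hQ
        rw [Finset.prod_insert hj, Finset.sum_insert hj,
          ENNReal.rpow_add_of_nonneg _ _ (hθ j (hQ (Finset.mem_insert_self j Q)))
            (Finset.sum_nonneg fun i hi => hθ i (hQ (Finset.mem_insert_of_mem hi))),
          ih ((Finset.subset_insert j Q).trans hQ)]
    exact this P subset_rfl
  have h3 : ∏ j ∈ P, ∏ i ∈ P, X i ^ (w i * (a j * θ j)) =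
      ∏ i ∈ P, X i ^ (w i * ∑ j ∈ P, a j * θ j) := by
    rw [Finset.prod_comm]
    refine Finset.prod_congr rfl fun i hi => ?_
    classical
    have : ∀ Q : Finset ι, Q ⊆ P → ∏ j ∈ Q, X i ^ (w i * (a j * θ j)) =
        X i ^ (w i * ∑ j ∈ Q, a j * θ j) := by
      intro Q
      induction Q using Finset.induction_on with
      | empty => simp
      | insert j Q hj ih =>
        intro hQ
        have hjP := hQ (Finset.mem_insert_self j Q)
        rw [Finset.prod_insert hj, Finset.sum_insert hj, mul_add,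
          ENNReal.rpow_add_of_nonneg _ _
            (mul_nonneg (hw i hi) (mul_nonneg (ha j hjP) (hθ j hjP)))
            (mul_nonneg (hw i hi) (Finset.sum_nonneg fun k hk =>
              mul_nonneg (ha k (hQ (Finset.mem_insert_of_mem hk)))
                (hθ k (hQ (Finset.mem_insert_of_mem hk))))),
          ih ((Finset.subset_insert j Q).trans hQ)]
    exact this P subset_rfl
  rw [h2, h3]
  have h4 : Y = Y ^ θ0 * Y ^ ∑ j ∈ P, θ j := by
    rw [← ENNReal.rpow_add_of_nonneg _ _ hθ0 (Finset.sum_nonneg hθ), hsum, ENNReal.rpow_one]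
  have h5 : ∏ i ∈ P, X i ^ (w i * b) = (∏ i ∈ P, (X i ^ w i) ^ θ0) *
      ((∏ i ∈ P, X i ^ (w i * ∑ j ∈ P, a j * θ j)) * ∏ j ∈ P, X j ^ (lam * w j)) := by
    rw [← Finset.prod_mul_distrib, ← Finset.prod_mul_distrib]
    refine Finset.prod_congr rfl fun i hi => ?_
    have hS : 0 ≤ ∑ j ∈ P, a j * θ j := Finset.sum_nonneg fun j hj => mul_nonneg (ha j hj) (hθ j hj)
    rw [← ENNReal.rpow_mul, ← ENNReal.rpow_add_of_nonneg _ _ (mul_nonneg (hw i hi) hS)
      (mul_nonneg hlam (hw i hi)), ← ENNReal.rpow_add_of_nonneg _ _ (mul_nonneg (hw i hi) hθ0)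
      (add_nonneg (mul_nonneg (hw i hi) hS) (mul_nonneg hlam (hw i hi))), ← hb]
    congr 1
    ring
  rw [h5]
  nth_rewrite 3 [h4]
  ring

/-- Hoelder: from the vertex bounds to the interpolated bound. -/
theorem combine {X ι : Type*} [MeasurableSpace X] (μ : Measure X) (P : Finset ι)
    (w a ε θ : ι → ℝ) (θ0 lam b : ℝ)
    (hw : ∀ j ∈ P, 0 ≤ w j) (ha : ∀ j ∈ P, 0 ≤ a j) (hε : ∀ j ∈ P, 0 ≤ ε j)
    (hθ : ∀ j ∈ P, 0 ≤ θ j) (hθ0 : 0 ≤ θ0) (hlam : 0 ≤ lam)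
    (hsum : θ0 + ∑ j ∈ P, θ j = 1) (hεθ : ∀ j ∈ P, ε j * θ j = lam * w j)
    (hb : θ0 + ∑ j ∈ P, a j * θ j + lam = b)
    (F : X → ℝ≥0∞) (hF : Measurable F) (f : ι → X → ℝ≥0∞) (hm : ∀ j ∈ P, Measurable (f j))
    (K : ℝ≥0∞) (N : ι → ℝ≥0∞)
    (h0 : ∫⁻ x, F x * ∏ i ∈ P, f i x ^ w i ∂μ ≤ K * ∏ i ∈ P, N i ^ w i)
    (hv : ∀ j ∈ P, θ j ≠ 0 →
      ∫⁻ x, F x * ((∏ i ∈ P, f i x ^ (w i * a j)) * f j x ^ ε j) ∂μ ≤
        K * ((∏ i ∈ P, N i ^ (w i * a j)) * N j ^ ε j)) :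
    ∫⁻ x, F x * ∏ i ∈ P, f i x ^ (w i * b) ∂μ ≤ K * ∏ i ∈ P, N i ^ (w i * b) := by
  set H : Option ι → X → ℝ≥0∞ := fun o x => match o with
    | none => F x * ∏ i ∈ P, f i x ^ w i
    | some j => F x * ((∏ i ∈ P, f i x ^ (w i * a j)) * f j x ^ ε j) with hH
  set θ' : Option ι → ℝ := fun o => match o with
    | none => θ0
    | some j => θ j with hθ'
  have hmp : ∀ c : ι → ℝ, Measurable fun x => ∏ i ∈ P, f i x ^ c i := fun c =>
    Finset.measurable_fun_prod P fun i hi => (hm i hi).pow_const _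
  have h1 := ENNReal.lintegral_prod_norm_pow_le (μ := μ) (Finset.insertNone P) (f := H)
    (p := θ') (by
      intro o ho
      cases o with
      | none => exact (hF.mul (hmp w)).aemeasurable
      | some j =>
        have hj : j ∈ P := by simpa using ho
        exact (hF.mul ((hmp fun i => w i * a j).mul ((hm j hj).pow_const _))).aemeasurable)
    (by
      rw [Finset.sum_insertNone]
      exact hsum)
    (by
      intro o ho
      cases o with
      | none => exact hθ0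
      | some j => exact hθ j (by simpa using ho))
  have h2 : ∀ x, ∏ o ∈ Finset.insertNone P, H o x ^ θ' o = F x * ∏ i ∈ P, f i x ^ (w i * b) := by
    intro x
    rw [Finset.prod_insertNone]
    exact alg P w a ε θ θ0 lam b hw ha hε hθ hθ0 hlam hsum hεθ hb (fun i => f i x) (F x)
  simp_rw [h2] at h1
  refine h1.trans ?_
  rw [Finset.prod_insertNone]
  rw [← alg P w a ε θ θ0 lam b hw ha hε hθ hθ0 hlam hsum hεθ hb N K]
  refine mul_le_mul' ?_ ?_
  · exact ENNReal.rpow_le_rpow h0 hθ0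
  · refine Finset.prod_le_prod' fun j hj => ?_
    by_cases hz : θ j = 0
    · simp only [hθ', hz, ENNReal.rpow_zero, le_refl]
    · exact ENNReal.rpow_le_rpow (hv j hj hz) (hθ j hj)

end Pool.Agent.TH278.FN
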