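import Mathlib
import Pool.Agent.TH278.FN.Abs2
set_option autoImplicit false

/-! Finner type interpolation of mixed norm bounds: the vertices. -/

namespace Pool.Agent.TH278.FN

open MeasureTheory Set
open scoped ENNReal

theorem mg_meas {n : ℕ} (s : Finset (Fin n)) {f : (Fin n → ℝ) → ℝ≥0∞} (hf : Measurable f) :
    Measurable (mg s f) := hf.lmarginal _

theorem mg_holder {n : ℕ} (s : Finset (Fin n)) (p q : ℝ) (hpq : p.HolderConjugate q)
    {f g : (Fin n → ℝ) → ℝ≥0∞} (hf : Measurable f) (hg : Measurable g) (x : Fin n → ℝ) :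
    mg s (fun x => f x * g x) x ≤
      (mg s (fun x => f x ^ p) x) ^ (1 / p) * (mg s (fun x => g x ^ q) x) ^ (1 / q) := by
  unfold mg lmarginal
  exact ENNReal.lintegral_mul_le_Lp_mul_Lq _ hpq
    (hf.comp measurable_updateFinset).aemeasurable (hg.comp measurable_updateFinset).aemeasurable

theorem mg_univ {n : ℕ} (f : (Fin n → ℝ) → ℝ≥0∞) (x : Fin n → ℝ) :
    mg Finset.univ f x = ∫⁻ x, f x := by
  unfold mg
  rw [lmarginal_univ]
  rfl

theorem mg_split {n : ℕ} (s : Finset (Fin n)) {f : (Fin n → ℝ) → ℝ≥0∞} (hf : Measurable f)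
    (x : Fin n → ℝ) : ∫⁻ x, f x = mg s (mg sᶜ f) x := by
  rw [← mg_univ f x]
  unfold mg
  rw [← lmarginal_union _ _ hf disjoint_compl_right, Finset.union_compl]

theorem mg_const_mul {n : ℕ} (s : Finset (Fin n)) (c : ℝ≥0∞) {f : (Fin n → ℝ) → ℝ≥0∞}
    (hf : Measurable f) (x : Fin n → ℝ) : mg s (fun x => c * f x) x = c * mg s f x := by
  unfold mg lmarginal
  rw [← lintegral_const_mul]
  exact hf.comp measurable_updateFinset

section

variable {n : ℕ} {ι : Type*} [DecidableEq ι] (P : Finset ι) (S : ι → Finset (Fin n))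
    (w : ι → ℝ) (f : ι → (Fin n → ℝ) → ℝ≥0∞)

/-- mixed norm `L^q L^r` -/
theorem vertex_le (hm : ∀ j ∈ P, Measurable (f j))
    (hd : ∀ j ∈ P, DependsOn (f j) (S j)) (hw : ∀ j ∈ P, 0 ≤ w j)
    (hcov : ∀ i, ∑ j ∈ P with i ∈ S j, w j = 1) (c : ι) (hc : c ∈ P)
    (p q ρ r : ℝ) (hpq : p.HolderConjugate q) (hρr : ρ.HolderConjugate r) (hpρ : p ≤ ρ)
    (F : (Fin n → ℝ) → ℝ≥0∞) (hF : Measurable F) (K : ℝ≥0∞) (x₀ : Fin n → ℝ)
    (hV : mg (S c) (fun x => (mg (S c)ᶜ (fun x => F x ^ r) x) ^ (q / r)) x₀ ≤ K ^ q) :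
    ∫⁻ x, F x * ((∏ i ∈ P, f i x ^ (w i * (1 / ρ))) * f c x ^ (1 / p - 1 / ρ)) ≤
      K * ((∏ i ∈ P, mg (S i) (f i) x₀ ^ (w i * (1 / ρ))) *
        mg (S c) (f c) x₀ ^ (1 / p - 1 / ρ)) := by
  have hp : 0 < p := hpq.pos
  have hq : 0 < q := hpq.symm.pos
  have hρ : 0 < ρ := hρr.pos
  have hr : 0 < r := hρr.symm.pos
  set h : (Fin n → ℝ) → ℝ≥0∞ := fun x =>
    (∏ j ∈ P, f j x ^ (w j / ρ)) * f c x ^ (1 / p - 1 / ρ) with hh
  have hhm : Measurable h := (Finset.measurable_fun_prod P fun i hi =>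
    (hm i hi).pow_const _).mul ((hm c hc).pow_const _)
  have e1 : ∀ x, (∏ i ∈ P, f i x ^ (w i * (1 / ρ))) * f c x ^ (1 / p - 1 / ρ) = h x := by
    intro x
    simp only [hh, mul_one_div]
  simp_rw [e1]
  have hFh : Measurable fun x => F x * h x := hF.mul hhm
  rw [mg_split (S c) hFh x₀]
  have mFr : Measurable (mg (S c)ᶜ fun x => F x ^ r) := mg_meas _ (hF.pow_const _)
  have mhr : Measurable (mg (S c)ᶜ fun x => h x ^ ρ) := mg_meas _ (hhm.pow_const _)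
  calc mg (S c) (mg (S c)ᶜ (fun x => F x * h x)) x₀
      ≤ mg (S c) (fun x => (mg (S c)ᶜ (fun x => F x ^ r) x) ^ (1 / r) *
          (mg (S c)ᶜ (fun x => h x ^ ρ) x) ^ (1 / ρ)) x₀ :=
        mg_mono _ (fun x => mg_holder _ r ρ hρr.symm hF hhm x) x₀
    _ ≤ (mg (S c) (fun x => ((mg (S c)ᶜ (fun x => F x ^ r) x) ^ (1 / r)) ^ q) x₀) ^ (1 / q) *
        (mg (S c) (fun x => ((mg (S c)ᶜ (fun x => h x ^ ρ) x) ^ (1 / ρ)) ^ p) x₀) ^ (1 / p) :=
        mg_holder _ q p hpq.symm (mFr.pow_const _) (mhr.pow_const _) x₀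
    _ = (mg (S c) (fun x => (mg (S c)ᶜ (fun x => F x ^ r) x) ^ (q / r)) x₀) ^ (1 / q) *
        (mg (S c) (fun x => (mg (S c)ᶜ (fun x => h x ^ ρ) x) ^ (p / ρ)) x₀) ^ (1 / p) := by
        simp_rw [← ENNReal.rpow_mul, one_div_mul_eq_div]
    _ ≤ (K ^ q) ^ (1 / q) *
        ((∏ j ∈ P, mg (S j) (f j) x₀ ^ (w j * (p / ρ))) *
          mg (S c) (f c) x₀ ^ (1 - p / ρ)) ^ (1 / p) := by
        gcongr
        exact mixed_le P S w f hm hd hw hcov c hc p ρ hp hpρ x₀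
    _ = _ := by
        rw [← ENNReal.rpow_mul, mul_one_div_cancel hq.ne', ENNReal.rpow_one,
          ENNReal.mul_rpow_of_nonneg _ _ (by positivity),
          ← ENNReal.prod_rpow_of_nonneg (by positivity)]
        congr 2
        · refine Finset.prod_congr rfl fun j _ => ?_
          rw [← ENNReal.rpow_mul]
          congr 1
          field_simp
        · rw [← ENNReal.rpow_mul]
          congr 1
          field_simp

/-- mixed norm `L^∞ L^r` -/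
theorem vertex_le' (hm : ∀ j ∈ P, Measurable (f j))
    (hd : ∀ j ∈ P, DependsOn (f j) (S j)) (hw : ∀ j ∈ P, 0 ≤ w j)
    (hcov : ∀ i, ∑ j ∈ P with i ∈ S j, w j = 1) (c : ι) (hc : c ∈ P)
    (ρ r : ℝ) (hρr : ρ.HolderConjugate r)
    (F : (Fin n → ℝ) → ℝ≥0∞) (hF : Measurable F) (K : ℝ≥0∞) (x₀ : Fin n → ℝ)
    (hV : ∀ x, mg (S c)ᶜ (fun x => F x ^ r) x ≤ K ^ r) :
    ∫⁻ x, F x * ((∏ i ∈ P, f i x ^ (w i * (1 / ρ))) * f c x ^ (1 - 1 / ρ)) ≤
      K * ((∏ i ∈ P, mg (S i) (f i) x₀ ^ (w i * (1 / ρ))) *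
        mg (S c) (f c) x₀ ^ (1 - 1 / ρ)) := by
  have hρ : 0 < ρ := hρr.pos
  have hr : 0 < r := hρr.symm.pos
  set h : (Fin n → ℝ) → ℝ≥0∞ := fun x =>
    (∏ j ∈ P, f j x ^ (w j / ρ)) * f c x ^ (1 / 1 - 1 / ρ) with hh
  have hhm : Measurable h := (Finset.measurable_fun_prod P fun i hi =>
    (hm i hi).pow_const _).mul ((hm c hc).pow_const _)
  have e1 : ∀ x, (∏ i ∈ P, f i x ^ (w i * (1 / ρ))) * f c x ^ (1 - 1 / ρ) = h x := by
    intro x
    simp only [hh, mul_one_div, div_one]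
  simp_rw [e1]
  have hFh : Measurable fun x => F x * h x := hF.mul hhm
  rw [mg_split (S c) hFh x₀]
  have mhr : Measurable (mg (S c)ᶜ fun x => h x ^ ρ) := mg_meas _ (hhm.pow_const _)
  calc mg (S c) (mg (S c)ᶜ (fun x => F x * h x)) x₀
      ≤ mg (S c) (fun x => K * (mg (S c)ᶜ (fun x => h x ^ ρ) x) ^ (1 / ρ)) x₀ := by
        refine mg_mono _ (fun x => ?_) x₀
        refine (mg_holder _ r ρ hρr.symm hF hhm x).trans ?_
        gcongr
        calc _ ≤ (K ^ r) ^ (1 / r) := by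
              gcongr
              exact hV x
          _ = K := by rw [← ENNReal.rpow_mul, mul_one_div_cancel hr.ne', ENNReal.rpow_one]
    _ = K * mg (S c) (fun x => (mg (S c)ᶜ (fun x => h x ^ ρ) x) ^ (1 / ρ)) x₀ :=
        mg_const_mul _ _ (mhr.pow_const _) x₀
    _ ≤ K * ((∏ j ∈ P, mg (S j) (f j) x₀ ^ (w j * (1 / ρ))) *
          mg (S c) (f c) x₀ ^ (1 - 1 / ρ)) := by
        gcongr
        exact mixed_le P S w f hm hd hw hcov c hc 1 ρ one_pos hρr.lt.le x₀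

omit [DecidableEq ι] in
/-- trivial vertex -/
theorem vertex_zero (hm : ∀ j ∈ P, Measurable (f j))
    (hd : ∀ j ∈ P, DependsOn (f j) (S j)) (hw : ∀ j ∈ P, 0 ≤ w j)
    (hcov : ∀ i, ∑ j ∈ P with i ∈ S j, w j = 1)
    (F : (Fin n → ℝ) → ℝ≥0∞) (K : ℝ≥0∞) (x₀ : Fin n → ℝ)
    (hV : ∀ x, F x ≤ K) :
    ∫⁻ x, F x * ∏ i ∈ P, f i x ^ w i ≤ K * ∏ i ∈ P, mg (S i) (f i) x₀ ^ w i := by
  have hmp : Measurable fun x => ∏ j ∈ P, f j x ^ w j :=
    Finset.measurable_fun_prod P fun j hj => (hm j hj).pow_const _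
  calc ∫⁻ x, F x * ∏ i ∈ P, f i x ^ w i ≤ ∫⁻ x, K * ∏ i ∈ P, f i x ^ w i :=
        lintegral_mono fun x => by
          show F x * _ ≤ K * _
          gcongr
          exact hV x
    _ = K * ∫⁻ x, ∏ i ∈ P, f i x ^ w i := lintegral_const_mul _ hmp
    _ ≤ _ := by
        gcongr
        rw [← mg_univ (fun x => ∏ i ∈ P, f i x ^ w i) x₀]
        have := finner P S w f hm hd hw Finset.univ (fun i _ => hcov i) x₀
        simpa only [Finset.univ_inter] using this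

end

end Pool.Agent.TH278.FN
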