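import Mathlib
import Pool.Agent.TH278.FN.Abs3
set_option autoImplicit false

/-! Finner type interpolation of mixed norm bounds: the abstract theorem. -/

namespace Pool.Agent.TH278.FN

open MeasureTheory Set
open scoped ENNReal

theorem params (n : ℕ) (hn : 2 ≤ n) (q : ℝ) (hq : 2 * (n : ℝ) / (n - 1) < q) :
    ∃ e : ℝ, 0 < e ∧ e ≤ 1 / 4 ∧ 2 * n * (1 + e) ≤ q * (n - 1 - e * n) ∧
      0 < (n : ℝ) - 1 - e * n := by
  have hn' : (2 : ℝ) ≤ n := by exact_mod_cast hn
  have h1 : 2 * (n : ℝ) < q * (n - 1) := (div_lt_iff₀ (by linarith)).1 hq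
  have hq0 : 0 < q := by
    by_contra h
    push Not at h
    have : q * ((n : ℝ) - 1) ≤ 0 := mul_nonpos_of_nonpos_of_nonneg h (by linarith)
    linarith
  have hd : 0 < (n : ℝ) * (q + 2) := by positivity
  refine ⟨min ((q * (n - 1) - 2 * n) / (n * (q + 2))) (1 / 4), ?_, min_le_right _ _, ?_, ?_⟩
  · refine lt_min (div_pos (by linarith) hd) (by norm_num)
  · have h2 : min ((q * (n - 1) - 2 * n) / (n * (q + 2))) (1 / 4) ≤
      (q * (n - 1) - 2 * n) / (n * (q + 2)) := min_le_left _ _
    rw [le_div_iff₀ hd] at h2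
    nlinarith
  · have h2 : min ((q * (n - 1) - 2 * n) / (n * (q + 2))) (1 / 4) ≤ 1 / 4 := min_le_right _ _
    nlinarith

theorem sum_card {n : ℕ} {ι : Type*} (P : Finset ι) (S : ι → Finset (Fin n)) (w : ι → ℝ)
    (hcov : ∀ i, ∑ j ∈ P with i ∈ S j, w j = 1) : ∑ j ∈ P, w j * (S j).card = n := by
  classical
  have h1 : ∑ i : Fin n, ∑ j ∈ P with i ∈ S j, w j = n := by
    simp [hcov]
  rw [← h1]
  simp_rw [Finset.sum_filter]
  rw [Finset.sum_comm]
  refine Finset.sum_congr rfl fun j _ => ?_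
  rw [← Finset.sum_filter, Finset.sum_const, nsmul_eq_mul, mul_comm]
  congr 3
  ext i
  simp

theorem main_abs (n : ℕ) (hn : 2 ≤ n) (q : ℝ) (hq : 2 * (n : ℝ) / (n - 1) < q) :
    ∃ qv r : ℝ, 4 < qv ∧ 2 < r ∧ ∀ {ι : Type} [DecidableEq ι] (P : Finset ι)
    (S : ι → Finset (Fin n)) (w : ι → ℝ) (f : ι → (Fin n → ℝ) → ℝ≥0∞)
    (_ : ∀ j ∈ P, Measurable (f j)) (_ : ∀ j ∈ P, DependsOn (f j) (S j)) (_ : ∀ j ∈ P, 0 ≤ w j)
    (_ : ∀ i, ∑ j ∈ P with i ∈ S j, w j = 1)
    (_ : ∀ j ∈ P, (S j).card = 1 ∨ (S j).card = 2)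
    (F : (Fin n → ℝ) → ℝ≥0∞) (_ : Measurable F) (K : ℝ≥0∞) (x₀ : Fin n → ℝ)
    (_ : ∀ j ∈ P, w j ≠ 0 → (S j).card = 2 →
      mg (S j) (fun x => (mg (S j)ᶜ (fun x => F x ^ (2 : ℝ)) x) ^ (qv / 2)) x₀ ≤ K ^ qv)
    (_ : ∀ j ∈ P, w j ≠ 0 → (S j).card = 1 → ∀ x, mg (S j)ᶜ (fun x => F x ^ r) x ≤ K ^ r)
    (_ : ∀ x, F x ≤ K),
    ∫⁻ x, F x * ∏ i ∈ P, f i x ^ (w i * (1 - 1 / q)) ≤
      K * ∏ i ∈ P, mg (S i) (f i) x₀ ^ (w i * (1 - 1 / q)) := by
  obtain ⟨e, he0, he4, hee, hen⟩ := params n hn q hq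
  have hn' : (2 : ℝ) ≤ n := by exact_mod_cast hn
  have hq0 : 0 < q := by
    by_contra h
    push Not at h
    have : q * ((n : ℝ) - 1 - e * n) ≤ 0 := mul_nonpos_of_nonpos_of_nonneg h hen.le
    nlinarith
  have h12 : 0 < 1 - 2 * e := by linarith
  have h1e : 0 < 1 - e := by linarith
  obtain ⟨qv, hqv⟩ : ∃ qv : ℝ, qv = 4 * (1 - e) / (1 - 2 * e) := ⟨_, rfl⟩
  obtain ⟨r, hr⟩ : ∃ r : ℝ, r = 2 * (1 + e) := ⟨_, rfl⟩
  have hqv4 : 4 < qv := by
    rw [hqv, lt_div_iff₀ h12]
    linarith
  have hr2 : 2 < r := by rw [hr]; linarith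
  refine ⟨qv, r, hqv4, hr2, ?_⟩
  intro ι _ P S w f hm hd hw hcov hcard F hF K x₀ hV2 hV1 hV0
  have hqv0 : 0 < qv := by linarith
  have hr0 : 0 < r := by linarith
  -- exponents
  set a : ι → ℝ := fun j => if (S j).card = 2 then 1 / 2 else 1 - 1 / r with ha
  set ε : ι → ℝ := fun j => if (S j).card = 2 then 1 / (4 * (1 - e)) else 1 / r with hε
  set κ : ι → ℝ := fun j => if (S j).card = 2 then 4 * (1 - e) else r with hκ
  set D : ℝ := ∑ j ∈ P, w j * (if (S j).card = 2 then 2 * (1 - e) else 1) - 1 with hD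
  set lam : ℝ := 1 / (q * D) with hlam
  have hsc := sum_card P S w hcov
  have hDge : (n : ℝ) - 1 - e * n ≤ D := by
    have h1 : (1 - e) * (n : ℝ) ≤ ∑ j ∈ P, w j * (if (S j).card = 2 then 2 * (1 - e) else 1) := by
      rw [← hsc, Finset.mul_sum]
      refine Finset.sum_le_sum fun j hj => ?_
      have hwj := hw j hj
      rcases hcard j hj with h | h
      · rw [if_neg (by omega), h]
        push_cast
        nlinarith
      · rw [if_pos h, h]
        push_cast
        nlinarith
    rw [hD]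
    linarith
  have hDpos : 0 < D := lt_of_lt_of_le hen hDge
  have hlam0 : 0 < lam := by positivity
  have hlamD : lam * D = 1 / q := by
    rw [hlam]; field_simp
  have hκsum : lam * ∑ j ∈ P, κ j * w j ≤ 1 := by
    have h1 : ∑ j ∈ P, κ j * w j ≤ 2 * (1 + e) * n := by
      rw [← hsc, Finset.mul_sum]
      refine Finset.sum_le_sum fun j hj => ?_
      have hwj := hw j hj
      simp only [hκ]
      rcases hcard j hj with h | h
      · rw [if_neg (by omega), h, hr]
        push_cast
        nlinarith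
      · rw [if_pos h, h]
        push_cast
        nlinarith
    calc lam * ∑ j ∈ P, κ j * w j ≤ lam * (2 * (1 + e) * n) := by gcongr
      _ = (2 * n * (1 + e)) / (q * D) := by rw [hlam]; ring
      _ ≤ 1 := by
        rw [div_le_one (by positivity)]
        calc _ ≤ q * (n - 1 - e * n) := hee
          _ ≤ q * D := by gcongr
  set θ : ι → ℝ := fun j => lam * (κ j * w j) with hθ
  have hκ0 : ∀ j, 0 ≤ κ j := by
    intro j
    simp only [hκ]
    split_ifs <;> linarith
  have hsumθ : ∑ j ∈ P, θ j = lam * ∑ j ∈ P, κ j * w j := by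
    rw [Finset.mul_sum]
  have key := combine (volume : Measure (Fin n → ℝ)) P w a ε θ (1 - ∑ j ∈ P, θ j) lam (1 - 1 / q)
    hw (by
      intro j _
      simp only [ha]
      split_ifs
      · norm_num
      · rw [sub_nonneg, div_le_one hr0]
        linarith)
    (by
      intro j _
      simp only [hε]
      split_ifs
      · positivity
      · positivity)
    (fun j hj => mul_nonneg hlam0.le (mul_nonneg (hκ0 j) (hw j hj)))
    (by rw [hsumθ]; linarith) hlam0.le (by ring)
    (by
      intro j _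
      simp only [hε, hθ, hκ]
      split_ifs
      · field_simp
      · field_simp)
    (by
      have h1 : ∑ j ∈ P, a j * θ j = ∑ j ∈ P, θ j - lam * (D + 1) := by
        rw [hD, sub_add_cancel, Finset.mul_sum, ← Finset.sum_sub_distrib]
        refine Finset.sum_congr rfl fun j _ => ?_
        simp only [ha, hθ, hκ]
        split_ifs
        · ring
        · field_simp
      rw [h1]
      have : lam * (D + 1) = 1 / q + lam := by rw [← hlamD]; ring
      rw [this]
      ring)
    F hF f hm K (fun j => mg (S j) (f j) x₀)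
    (vertex_zero P S w f hm hd hw hcov F K x₀ hV0)
    (by
      intro j hj hθj
      have hwj : w j ≠ 0 := by
        intro h0
        apply hθj
        simp only [hθ, h0, mul_zero]
      rcases hcard j hj with h | h
      · have h2 : (S j).card ≠ 2 := by omega
        simp only [ha, hε, if_neg h2]
        have hc : (r / (r - 1)).HolderConjugate r := (Real.HolderConjugate.conjExponent (by linarith : 1 < r)).symm
        have e1 : 1 / (r / (r - 1)) = 1 - 1 / r := by
          field_simp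
        have h3 := vertex_le' P S w f hm hd hw hcov j hj (r / (r - 1)) r hc F hF K x₀
          (hV1 j hj hwj h)
        rw [e1] at h3
        have e2 : 1 - (1 - 1 / r) = 1 / r := by ring
        rw [e2] at h3
        exact h3
      · simp only [ha, hε, if_pos h]
        have hc : (qv / (qv - 1)).HolderConjugate qv :=
          (Real.HolderConjugate.conjExponent (by linarith : 1 < qv)).symm
        have h3 := vertex_le P S w f hm hd hw hcov j hj (qv / (qv - 1)) qv 2 2 hc
          Real.HolderConjugate.two_two (by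
            rw [div_le_iff₀ (by linarith)]
            linarith) F hF K x₀ (hV2 j hj hwj h)
        have e1 : 1 / (qv / (qv - 1)) - 1 / 2 = 1 / (4 * (1 - e)) := by
          have : 1 / (qv / (qv - 1)) = 1 - 1 / qv := by
            have : qv - 1 ≠ 0 := by linarith
            field_simp
          rw [this, hqv]
          field_simp
          ring
        rw [e1] at h3
        exact h3)
  exact key

end Pool.Agent.TH278.FN
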