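import Mathlib
import Pool.Agent.TH278.FN.Abs3
set_option autoImplicit false

/-! Blocks of at most two coordinates, indexed by pairs `i ≤ j`. -/

namespace Pool.Agent.TH278.FN

open MeasureTheory Set
open scoped ENNReal NNReal

/-- index set of the blocks -/
def PI (n : ℕ) : Finset (Σ _ : Fin n, Fin n) := Finset.univ.sigma (fun i => Finset.Ici i)

/-- the block `{i, j}` -/
def SI {n : ℕ} (p : Σ _ : Fin n, Fin n) : Finset (Fin n) := {p.1, p.2}

section

variable {n : ℕ} (v : Fin n → ℝ) (w : Fin n → Fin n → ℝ) (φ : Fin n → ℝ → ℝ≥0∞)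
  (g : Fin n → Fin n → ℝ × ℝ → ℝ≥0∞)

/-- weights -/
noncomputable def wI (p : Σ _ : Fin n, Fin n) : ℝ := if p.1 = p.2 then v p.1 else w p.1 p.2

/-- functions -/
noncomputable def fI (p : Σ _ : Fin n, Fin n) (x : Fin n → ℝ) : ℝ≥0∞ :=
  if p.1 = p.2 then φ p.1 (x p.1) else g p.1 p.2 (x p.1, x p.2)

omit v w φ g in
theorem prod_PI {M : Type*} [CommMonoid M] (F : (Σ _ : Fin n, Fin n) → M) :
    ∏ p ∈ PI n, F p = (∏ i, F ⟨i, i⟩) * ∏ i, ∏ j ∈ Finset.Ioi i, F ⟨i, j⟩ := by
  unfold PI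
  rw [Finset.prod_sigma, ← Finset.prod_mul_distrib]
  refine Finset.prod_congr rfl fun i _ => ?_
  rw [← Finset.Ioi_insert i, Finset.prod_insert (by simp)]

omit v w φ g in
theorem sum_PI (F : (Σ _ : Fin n, Fin n) → ℝ) :
    ∑ p ∈ PI n, F p = (∑ i, F ⟨i, i⟩) + ∑ i, ∑ j ∈ Finset.Ioi i, F ⟨i, j⟩ := by
  unfold PI
  rw [Finset.sum_sigma, ← Finset.sum_add_distrib]
  refine Finset.sum_congr rfl fun i _ => ?_
  rw [← Finset.Ioi_insert i, Finset.sum_insert (by simp)]

theorem cov_PI (hsum : ∀ i, v i + ∑ j ∈ Finset.Ioi i, w i j + ∑ j ∈ Finset.Iio i, w j i = 1)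
    (k : Fin n) : ∑ p ∈ PI n with k ∈ SI p, wI v w p = 1 := by
  rw [Finset.sum_filter, sum_PI, ← hsum k, add_assoc]
  have h1 : ∑ i : Fin n, (if k ∈ SI (⟨i, i⟩ : Σ _ : Fin n, Fin n) then wI v w ⟨i, i⟩ else 0) =
      v k := by
    rw [Finset.sum_eq_single_of_mem k (Finset.mem_univ k)]
    · simp [SI, wI]
    · intro i _ hi
      have : k ∉ SI (⟨i, i⟩ : Σ _ : Fin n, Fin n) := by
        simp only [SI, Finset.mem_insert, Finset.mem_singleton, or_self]
        exact fun h => hi h.symm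
      rw [if_neg this]
  have h2 : ∑ i : Fin n, ∑ j ∈ Finset.Ioi i,
      (if k ∈ SI (⟨i, j⟩ : Σ _ : Fin n, Fin n) then wI v w ⟨i, j⟩ else 0) =
      ∑ i : Fin n, ((if i = k then ∑ j ∈ Finset.Ioi k, w k j else 0) +
        (if i < k then w i k else 0)) := by
    refine Finset.sum_congr rfl fun i _ => ?_
    have h3 : ∀ j ∈ Finset.Ioi i,
        (if k ∈ SI (⟨i, j⟩ : Σ _ : Fin n, Fin n) then wI v w ⟨i, j⟩ else 0) =
        (if i = k then w k j else 0) + (if j = k then w i k else 0) := by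
      intro j hj
      have hij : i < j := Finset.mem_Ioi.1 hj
      have hw' : wI v w ⟨i, j⟩ = w i j := by
        unfold wI
        rw [if_neg hij.ne]
      rw [hw']
      by_cases hik : i = k
      · subst hik
        have hjk : j ≠ i := hij.ne'
        simp [SI, hjk]
      · by_cases hjk : j = k
        · subst hjk
          simp [SI, hik]
        · have : k ∉ SI (⟨i, j⟩ : Σ _ : Fin n, Fin n) := by
            simp only [SI, Finset.mem_insert, Finset.mem_singleton, not_or]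
            exact ⟨fun h => hik h.symm, fun h => hjk h.symm⟩
          rw [if_neg this, if_neg hik, if_neg hjk, add_zero]
    rw [Finset.sum_congr rfl h3, Finset.sum_add_distrib]
    congr 1
    · split_ifs with h
      · subst h
        rfl
      · simp
    · rw [Finset.sum_ite_eq']
      simp only [Finset.mem_Ioi]
  rw [h1, h2, Finset.sum_add_distrib]
  congr 2
  · simp
  · rw [← Finset.sum_filter]
    refine Finset.sum_congr ?_ fun _ _ => rfl
    ext i
    simp

theorem card_SI (p : Σ _ : Fin n, Fin n) : (SI p).card = if p.1 = p.2 then 1 else 2 := by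
  unfold SI
  split_ifs with h
  · rw [h]; simp
  · exact Finset.card_pair h

theorem fI_meas (hφ : ∀ i, Measurable (φ i)) (hg : ∀ i j, Measurable (g i j))
    (p : Σ _ : Fin n, Fin n) : Measurable (fI φ g p) := by
  unfold fI
  split_ifs
  · exact (hφ _).comp (measurable_pi_apply _)
  · exact (hg _ _).comp ((measurable_pi_apply _).prodMk (measurable_pi_apply _))

theorem fI_dep (p : Σ _ : Fin n, Fin n) : DependsOn (fI φ g p) (SI p) := by
  intro x y hxy
  have h1 : x p.1 = y p.1 := hxy _ (by simp [SI])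
  have h2 : x p.2 = y p.2 := hxy _ (by simp [SI])
  unfold fI
  rw [h1, h2]

theorem mg_fI_diag (i : Fin n) (hφ : ∀ i, Measurable (φ i)) (x₀ : Fin n → ℝ) :
    mg (SI (⟨i, i⟩ : Σ _ : Fin n, Fin n)) (fI φ g ⟨i, i⟩) x₀ = ∫⁻ t, φ i t := by
  have : SI (⟨i, i⟩ : Σ _ : Fin n, Fin n) = {i} := by simp [SI]
  rw [this]
  unfold mg
  rw [lmarginal_singleton]
  simp [fI]

theorem mg_fI_off (i j : Fin n) (hij : i ≠ j) (hg : ∀ i j, Measurable (g i j)) (x₀ : Fin n → ℝ) :
    mg (SI (⟨i, j⟩ : Σ _ : Fin n, Fin n)) (fI φ g ⟨i, j⟩) x₀ = ∫⁻ z, g i j z := by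
  have hm : Measurable (fI φ g ⟨i, j⟩) := by
    have : fI φ g ⟨i, j⟩ = fun x => g i j (x i, x j) := by
      ext x
      simp [fI, hij]
    rw [this]
    exact (hg _ _).comp ((measurable_pi_apply _).prodMk (measurable_pi_apply _))
  have h1 : SI (⟨i, j⟩ : Σ _ : Fin n, Fin n) = insert i {j} := by simp [SI]
  rw [h1]
  unfold mg
  rw [lmarginal_insert _ hm (by simpa using hij)]
  simp_rw [lmarginal_singleton]
  rw [Measure.volume_eq_prod, lintegral_prod _ (hg i j).aemeasurable]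
  refine lintegral_congr fun t => lintegral_congr fun u => ?_
  simp [fI, hij, Function.update_of_ne hij]

end

end Pool.Agent.TH278.FN
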