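import Mathlib
import Pool.Agent.TH278.FN.Abs4
import Pool.Agent.TH278.FN.GR
import Pool.Agent.TH192.J1618
set_option autoImplicit false

/-! Marginals in three variables, the extension operator of the paraboloid. -/

namespace Pool.Agent.TH278.FN

open MeasureTheory Set Complex
open scoped ENNReal NNReal

theorem compl3 : ∀ i j k : Fin 3, i ≠ j → i ≠ k → j ≠ k → ({i, j} : Finset (Fin 3))ᶜ = {k} := by
  decide

theorem compl3' : ∀ i j k : Fin 3, i ≠ j → i ≠ k → j ≠ k → ({k} : Finset (Fin 3))ᶜ = {i, j} := by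
  decide

theorem cases3 : ∀ i j k l : Fin 3, i ≠ j → i ≠ k → j ≠ k → l = i ∨ l = j ∨ l = k := by
  decide

/-- point with given coordinates -/
def pt3 (i j : Fin 3) (a b c : ℝ) (l : Fin 3) : ℝ := if l = i then a else if l = j then b else c

theorem upd3 (i j k : Fin 3) (hij : i ≠ j) (hik : i ≠ k) (hjk : j ≠ k) (x₀ : Fin 3 → ℝ)
    (a b c : ℝ) : Function.update (Function.update (Function.update x₀ i a) j b) k c =
      pt3 i j a b c := by
  ext l
  rcases cases3 i j k l hij hik hjk with rfl | rfl | rfl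
  · simp [pt3, Function.update_of_ne hik, Function.update_of_ne hij]
  · simp [pt3, Function.update_of_ne hjk, hij.symm]
  · simp [pt3, hik.symm, hjk.symm]

theorem upd3' (i j k : Fin 3) (hij : i ≠ j) (hik : i ≠ k) (hjk : j ≠ k) (x : Fin 3 → ℝ)
    (a b : ℝ) : Function.update (Function.update x i a) j b = pt3 i j a b (x k) := by
  ext l
  rcases cases3 i j k l hij hik hjk with rfl | rfl | rfl
  · simp [pt3, Function.update_of_ne hij]
  · simp [pt3, hij.symm]
  · simp [pt3, hik.symm, hjk.symm, Function.update_of_ne hik.symm, Function.update_of_ne hjk.symm]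

theorem mg3 (i j k : Fin 3) (hij : i ≠ j) (hik : i ≠ k) (hjk : j ≠ k)
    (Ψ : (Fin 3 → ℝ) → ℝ≥0∞) (hΨ : Measurable Ψ) (p : ℝ) (x₀ : Fin 3 → ℝ) :
    mg {i, j} (fun x => (mg ({i, j} : Finset (Fin 3))ᶜ Ψ x) ^ p) x₀ =
      ∫⁻ a : ℝ, ∫⁻ b : ℝ, (∫⁻ c : ℝ, Ψ (pt3 i j a b c)) ^ p := by
  rw [compl3 i j k hij hik hjk]
  have hm : Measurable fun x => (mg ({k} : Finset (Fin 3)) Ψ x) ^ p := (mg_meas _ hΨ).pow_const _
  unfold mg at hm ⊢
  rw [lmarginal_insert _ hm (by simpa using hij)]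
  simp_rw [lmarginal_singleton]
  refine lintegral_congr fun a => lintegral_congr fun b => ?_
  congr 1
  refine lintegral_congr fun c => ?_
  rw [upd3 i j k hij hik hjk]

theorem mg3' (i j k : Fin 3) (hij : i ≠ j) (hik : i ≠ k) (hjk : j ≠ k)
    (Ψ : (Fin 3 → ℝ) → ℝ≥0∞) (hΨ : Measurable Ψ) (x : Fin 3 → ℝ) :
    mg ({k} : Finset (Fin 3))ᶜ Ψ x = ∫⁻ a : ℝ, ∫⁻ b : ℝ, Ψ (pt3 i j a b (x k)) := by
  rw [compl3' i j k hij hik hjk]
  unfold mg
  rw [lmarginal_insert _ hΨ (by simpa using hij)]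
  simp_rw [lmarginal_singleton]
  refine lintegral_congr fun a => lintegral_congr fun b => ?_
  rw [upd3' i j k hij hik hjk]

/-- `|E f|` as a function of three coordinates -/
noncomputable def FE (f : ℝ × ℝ → ℂ) (x : Fin 3 → ℝ) : ℝ≥0∞ := ‖ex f (x 0) (x 1) (x 2)‖ₑ

theorem ex_meas (f : ℝ × ℝ → ℂ) (hf : Measurable f) :
    Measurable fun y : ℝ × ℝ × ℝ => ex f y.1 y.2.1 y.2.2 := by
  unfold ex
  apply StronglyMeasurable.measurable
  apply StronglyMeasurable.integral_prod_right (f := fun (y : ℝ × ℝ × ℝ) (x : ℝ × ℝ) =>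
    cexp (-(I * ((x.1 * y.1 + x.2 * y.2.1 + (x.1 ^ 2 + x.2 ^ 2) * y.2.2 : ℝ) : ℂ))) * f x)
  apply Measurable.stronglyMeasurable
  have h1 : Measurable fun p : (ℝ × ℝ × ℝ) × (ℝ × ℝ) => f p.2 := hf.comp measurable_snd
  have h2 : Measurable fun p : (ℝ × ℝ × ℝ) × (ℝ × ℝ) =>
      (p.2.1 * p.1.1 + p.2.2 * p.1.2.1 + (p.2.1 ^ 2 + p.2.2 ^ 2) * p.1.2.2 : ℝ) := by fun_prop
  exact (Complex.measurable_exp.comp
    ((Complex.measurable_ofReal.comp h2).const_mul I).neg).mul h1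

theorem FE_meas (f : ℝ × ℝ → ℂ) (hf : Measurable f) : Measurable (FE f) := by
  unfold FE
  have h1 : Measurable fun x : Fin 3 → ℝ => (x 0, x 1, x 2) := by fun_prop
  exact ((ex_meas f hf).comp h1).enorm

theorem ex_swap (f : ℝ × ℝ → ℂ) (a b t : ℝ) : ex (fun x => f x.swap) a b t = ex f b a t := by
  unfold ex
  have h := (Measure.measurePreserving_swap (μ := (volume : Measure ℝ))
    (ν := (volume : Measure ℝ))).integral_comp (MeasurableEquiv.prodComm (α := ℝ) (β := ℝ)).measurableEmbedding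
    (fun x : ℝ × ℝ => cexp (-(I * ((x.1 * b + x.2 * a + (x.1 ^ 2 + x.2 ^ 2) * t : ℝ) : ℂ))) * f x)
  rw [← Measure.volume_eq_prod] at h
  rw [← h]
  refine integral_congr_ae (Filter.Eventually.of_forall fun x => ?_)
  simp only [Prod.fst_swap, Prod.snd_swap]
  congr 5
  push_cast
  ring

end Pool.Agent.TH278.FN
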