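import Mathlib
import Pool.Agent.TH278.FN.ParA
import Pool.Agent.TH89.J1620
set_option autoImplicit false

/-! The extension operator of the paraboloid at a fixed time, in terms of the `L⁴` norm. -/

namespace Pool.Agent.TH278.FN

open MeasureTheory Set Complex
open scoped ENNReal NNReal
open Pool.Agent.TH89.J1620 (G G_norm G_meas_1 G_meas_y ex_eq fac_a fac_b)

theorem pl_two : ∃ K : ℝ≥0, ∀ (F : ℝ → ℂ), Measurable F → ∀ (M : ℝ), (∀ x, ‖F x‖ ≤ M) →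
    ∫⁻ b : ℝ, ‖∫ y in Ioo (-1 : ℝ) 1, cexp (-((b * y : ℝ) : ℂ) * I) * F y‖ₑ ^ (2 : ℕ)
      ≤ K * ∫⁻ y in Ioo (-1 : ℝ) 1, ‖F y‖ₑ ^ (2 : ℕ) := by
  refine ⟨(2 * Real.pi).toNNReal, fun F hF M hM => ?_⟩
  have := Pool.Agent.H789R2.FR.pl_phase (Ioo (-1 : ℝ) 1) measurableSet_Ioo (by simp)
    (fun y => y) (fun _ => 1) measurable_id measurable_const
    (fun c _ => hasDerivWithinAt_id c _) (fun _ _ => one_ne_zero) (fun x _ y _ h => h)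
    F hF ⟨M, hM⟩
  have e1 : (((2 * Real.pi).toNNReal : ℝ≥0) : ℝ≥0∞) = ENNReal.ofReal (2 * Real.pi) := rfl
  rw [e1]
  simpa [ENNReal.ofReal_pow, ofReal_norm] using this

theorem lemC2 (K : ℝ≥0) (hK : ∀ (F : ℝ → ℂ), Measurable F → ∀ (M : ℝ), (∀ x, ‖F x‖ ≤ M) →
    ∫⁻ b : ℝ, ‖∫ y in Ioo (-1 : ℝ) 1, cexp (-((b * y : ℝ) : ℂ) * I) * F y‖ₑ ^ (2 : ℕ)
      ≤ K * ∫⁻ y in Ioo (-1 : ℝ) 1, ‖F y‖ₑ ^ (2 : ℕ))
    (Φ : ℝ → ℝ → ℂ) (hΦ : Measurable (Function.uncurry Φ)) (B : ℝ) (hB : ∀ u y, ‖Φ u y‖ ≤ B) :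
    ∫⁻ u : ℝ, ∫⁻ b : ℝ, ‖∫ y in Ioo (-1 : ℝ) 1, cexp (-((b * y : ℝ) : ℂ) * I) * Φ u y‖ₑ ^ (2 : ℕ) ≤
      K * ∫⁻ y in Ioo (-1 : ℝ) 1, ∫⁻ u : ℝ, ‖Φ u y‖ₑ ^ (2 : ℕ) := by
  have h1 : ∀ u, ∫⁻ b : ℝ, ‖∫ y in Ioo (-1 : ℝ) 1, cexp (-((b * y : ℝ) : ℂ) * I) * Φ u y‖ₑ ^ (2 : ℕ)
      ≤ K * ∫⁻ y in Ioo (-1 : ℝ) 1, ‖Φ u y‖ₑ ^ (2 : ℕ) := by
    intro u
    exact hK (Φ u) (hΦ.comp (by fun_prop : Measurable fun y : ℝ => (u, y))) B (hB u)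
  have h2 : Measurable fun q : ℝ × ℝ => ‖Φ q.1 q.2‖ₑ ^ (2 : ℕ) := hΦ.enorm.pow_const 2
  calc ∫⁻ u : ℝ, ∫⁻ b : ℝ, ‖∫ y in Ioo (-1 : ℝ) 1, cexp (-((b * y : ℝ) : ℂ) * I) * Φ u y‖ₑ ^ (2 : ℕ)
      ≤ ∫⁻ u : ℝ, K * ∫⁻ y in Ioo (-1 : ℝ) 1, ‖Φ u y‖ₑ ^ (2 : ℕ) :=
        lintegral_mono h1
    _ = K * ∫⁻ u : ℝ, ∫⁻ y in Ioo (-1 : ℝ) 1, ‖Φ u y‖ₑ ^ (2 : ℕ) := by
        rw [lintegral_const_mul' _ _ ENNReal.coe_ne_top]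
    _ = _ := by
        rw [lintegral_lintegral_swap]
        exact h2.aemeasurable

theorem ex_t2 : ∃ K : ℝ≥0, ∀ (f : ℝ × ℝ → ℂ), Measurable f → ∀ (M : ℝ), (∀ z, ‖f z‖ ≤ M) →
    (∀ x : ℝ × ℝ, 1 ≤ x.1 ^ 2 + x.2 ^ 2 → f x = 0) → ∀ (t : ℝ),
    ∫⁻ a : ℝ, ∫⁻ b : ℝ, ‖ex f a b t‖ₑ ^ (2 : ℕ) ≤
      K * (K * ∫⁻ x : ℝ × ℝ, ‖f x‖ₑ ^ (2 : ℕ)) := by
  obtain ⟨K, hK⟩ := pl_two
  refine ⟨K, ?_⟩
  intro f hf M hM hs t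
  have hm1 : StronglyMeasurable (Function.uncurry fun (q : ℝ × ℝ) (y : ℝ) =>
      G f 0 q.1 t q.2 y) := by
    exact (G_meas_1 f hf 0 t).stronglyMeasurable
  obtain ⟨Φ, hΦ⟩ : ∃ Φ : ℝ → ℝ → ℂ, ∀ b x, Φ b x = ∫ y in Ioo (-1 : ℝ) 1, G f 0 b t x y :=
    ⟨fun b x => ∫ y in Ioo (-1 : ℝ) 1, G f 0 b t x y, fun _ _ => rfl⟩
  have hΦm : Measurable (Function.uncurry Φ) := by
    have h1 : Function.uncurry Φ = fun q : ℝ × ℝ => ∫ y in Ioo (-1 : ℝ) 1, G f 0 q.1 t q.2 y := by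
      ext q
      exact hΦ q.1 q.2
    rw [h1]
    exact (hm1.integral_prod_right (ν := volume.restrict (Ioo (-1 : ℝ) 1))).measurable
  have hvol : (volume (Ioo (-1 : ℝ) 1)) < ∞ := by simp
  have hΦb : ∀ u x, ‖Φ u x‖ ≤ M * 2 := by
    intro u x
    rw [hΦ]
    refine (norm_setIntegral_le_of_norm_le_const (C := M) hvol
      (fun y _ => by rw [G_norm]; exact hM _)).trans (le_of_eq ?_)
    rw [Measure.real, Real.volume_Ioo, ENNReal.toReal_ofReal (by norm_num)]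
    ring
  have hex : ∀ a b, ex f a b t = ∫ x in Ioo (-1 : ℝ) 1, cexp (-((a * x : ℝ) : ℂ) * I) * Φ b x := by
    intro a b
    have h0 : ex f a b t = Pool.Agent.TH89.J1620.ex f a b t := rfl
    rw [h0, ex_eq f hf M hM hs]
    refine setIntegral_congr_fun measurableSet_Ioo fun x _ => ?_
    simp only [hΦ]
    rw [← integral_const_mul]
    refine setIntegral_congr_fun measurableSet_Ioo fun y _ => ?_
    exact fac_a f a b t x y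
  have hA : ∀ x, ∫⁻ b, ‖Φ b x‖ₑ ^ (2 : ℕ) ≤ K *
      ∫⁻ y in Ioo (-1 : ℝ) 1, ‖f (x, y)‖ₑ ^ (2 : ℕ) := by
    intro x
    have h := hK (fun y => G f 0 0 t x y) (G_meas_y f hf 0 0 t x) M
      (fun y => by rw [G_norm]; exact hM _)
    have e1 : ∀ b, Φ b x =
        ∫ c in Ioo (-1 : ℝ) 1, cexp (-((b * c : ℝ) : ℂ) * I) * G f 0 0 t x c := by
      intro b
      rw [hΦ]
      refine setIntegral_congr_fun measurableSet_Ioo fun y _ => ?_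
      exact fac_b f 0 b t x y
    simp_rw [e1]
    refine h.trans (le_of_eq ?_)
    congr 1
    refine lintegral_congr fun y => ?_
    rw [← ofReal_norm, G_norm, ofReal_norm]
  have hmex : Measurable fun q : ℝ × ℝ => ‖ex f q.1 q.2 t‖ₑ ^ (2 : ℕ) :=
    (((ex_meas f hf).comp (by fun_prop : Measurable fun q : ℝ × ℝ => (q.1, q.2, t))).enorm).pow_const 2
  rw [lintegral_lintegral_swap hmex.aemeasurable]
  have h3 := lemC2 K hK Φ hΦm (M * 2) hΦb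
  simp_rw [← hex] at h3
  refine h3.trans ?_
  gcongr
  calc ∫⁻ x in Ioo (-1 : ℝ) 1, ∫⁻ b : ℝ, ‖Φ b x‖ₑ ^ (2 : ℕ)
      ≤ ∫⁻ x in Ioo (-1 : ℝ) 1, K *
          ∫⁻ y in Ioo (-1 : ℝ) 1, ‖f (x, y)‖ₑ ^ (2 : ℕ) := lintegral_mono fun x => hA x
    _ = K * ∫⁻ x in Ioo (-1 : ℝ) 1, ∫⁻ y in Ioo (-1 : ℝ) 1, ‖f (x, y)‖ₑ ^ (2 : ℕ) := by
        rw [lintegral_const_mul' _ _ ENNReal.coe_ne_top]
    _ ≤ K * ∫⁻ x : ℝ, ∫⁻ y : ℝ, ‖f (x, y)‖ₑ ^ (2 : ℕ) := by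
        gcongr
        · exact Measure.restrict_le_self
        · exact Measure.restrict_le_self
    _ = _ := by
        rw [Measure.volume_eq_prod, lintegral_prod _ (hf.enorm.pow_const 2).aemeasurable]

end Pool.Agent.TH278.FN
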