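import Mathlib
import Pool.Agent.TH278.FN.ParB
import Pool.Agent.TH494.J1619
import Pool.Agent.TH304.J1596
import Pool.Agent.TH554.J1595
import Pool.Agent.TH989.J1594
set_option autoImplicit false

/-! Vertices for the paraboloid. -/

namespace Pool.Agent.TH278.FN

open MeasureTheory Set Complex
open scoped ENNReal NNReal

/-- bounded, measurable, zero outside the unit disc -/
structure Gd (f : ℝ × ℝ → ℂ) (M : ℝ) : Prop where
  meas : Measurable f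
  bound : ∀ z, ‖f z‖ ≤ M
  supp : ∀ x : ℝ × ℝ, 1 ≤ x.1 ^ 2 + x.2 ^ 2 → f x = 0

/-- the `L⁴` norm -/
noncomputable def N4 (f : ℝ × ℝ → ℂ) : ℝ≥0∞ := (∫⁻ x, ‖f x‖ₑ ^ (4 : ℝ)) ^ (1 / 4 : ℝ)

theorem box_out {f : ℝ × ℝ → ℂ} {M : ℝ} (hf : Gd f M) (z : ℝ × ℝ)
    (hz : z ∉ Ioo (-1 : ℝ) 1 ×ˢ Ioo (-1 : ℝ) 1) : f z = 0 := by
  apply hf.supp
  by_contra hcon
  push Not at hcon
  apply hz
  have h1 : z.1 ^ 2 < 1 := by nlinarith [sq_nonneg z.2]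
  have h2 : z.2 ^ 2 < 1 := by nlinarith [sq_nonneg z.1]
  exact ⟨abs_lt.1 (by nlinarith [abs_nonneg z.1, sq_abs z.1]),
    abs_lt.1 (by nlinarith [abs_nonneg z.2, sq_abs z.2])⟩

theorem lint_box {f : ℝ × ℝ → ℂ} {M : ℝ} (hf : Gd f M) (p : ℝ) (hp : 0 < p) :
    ∫⁻ x, ‖f x‖ₑ ^ p = ∫⁻ x in Ioo (-1 : ℝ) 1 ×ˢ Ioo (-1 : ℝ) 1, ‖f x‖ₑ ^ p := by
  rw [← lintegral_indicator (measurableSet_Ioo.prod measurableSet_Ioo)]
  refine lintegral_congr fun x => ?_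
  by_cases h : x ∈ Ioo (-1 : ℝ) 1 ×ˢ Ioo (-1 : ℝ) 1
  · rw [indicator_of_mem h]
  · rw [indicator_of_notMem h, box_out hf x h, enorm_zero, ENNReal.zero_rpow_of_pos hp]

theorem vol_box : (volume : Measure (ℝ × ℝ)) (Ioo (-1 : ℝ) 1 ×ˢ Ioo (-1 : ℝ) 1) = 4 := by
  rw [Measure.volume_eq_prod, Measure.prod_prod, Real.volume_Ioo,
    ← ENNReal.ofReal_mul (by norm_num)]
  norm_num

/-- Hoelder on the box -/
theorem low_le {f : ℝ × ℝ → ℂ} {M : ℝ} (hf : Gd f M) (p : ℝ) (hp : 0 < p) (hp4 : p < 4) :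
    ∫⁻ x, ‖f x‖ₑ ^ p ≤ (4 : ℝ≥0∞) ^ (1 - p / 4) * N4 f ^ p := by
  have h4p : 1 < 4 / p := by rw [lt_div_iff₀ hp]; linarith
  have hc : (4 / p / (4 / p - 1)).HolderConjugate (4 / p) :=
    (Real.HolderConjugate.conjExponent h4p).symm
  have h1 := ENNReal.lintegral_mul_le_Lp_mul_Lq
    ((volume : Measure (ℝ × ℝ)).restrict (Ioo (-1 : ℝ) 1 ×ˢ Ioo (-1 : ℝ) 1)) hc (f := fun _ => 1)
      (g := fun z => ‖f z‖ₑ ^ p) aemeasurable_const (hf.meas.enorm.pow_const p).aemeasurable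
  simp only [Pi.mul_apply, one_mul, ENNReal.one_rpow, lintegral_one,
    Measure.restrict_apply_univ, vol_box] at h1
  rw [lint_box hf p hp]
  refine h1.trans (le_of_eq ?_)
  have e1 : 1 / (4 / p / (4 / p - 1)) = 1 - p / 4 := by
    have : 4 - p ≠ 0 := by linarith
    field_simp
  have e2 : 1 / (4 / p) = p / 4 := by field_simp
  rw [e1, e2]
  congr 1
  unfold N4
  rw [lint_box hf 4 (by norm_num), ← ENNReal.rpow_mul]
  have e3 : (1 / 4 : ℝ) * p = p / 4 := by ring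
  rw [e3]
  congr 1
  refine lintegral_congr fun x => ?_
  rw [← ENNReal.rpow_mul]
  congr 1
  field_simp

theorem ex_le1 (f : ℝ × ℝ → ℂ) (a b t : ℝ) : ‖ex f a b t‖ₑ ≤ ∫⁻ x, ‖f x‖ₑ ^ (1 : ℝ) := by
  unfold ex
  refine (enorm_integral_le_lintegral_enorm _).trans (lintegral_mono fun x => ?_)
  rw [enorm_mul, ENNReal.rpow_one]
  have : ‖cexp (-(I * ((x.1 * a + x.2 * b + (x.1 ^ 2 + x.2 ^ 2) * t : ℝ) : ℂ)))‖ₑ = 1 := by
    rw [← ofReal_norm, Pool.Agent.TH89.J1620.ph_norm, ENNReal.ofReal_one]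
  rw [this, one_mul]

theorem N4_le {f : ℝ × ℝ → ℂ} {M : ℝ} (hf : Gd f M) : N4 f ≤ 2 * ENNReal.ofReal M := by
  unfold N4
  rw [lint_box hf 4 (by norm_num)]
  have h1 : ∀ z, ‖f z‖ₑ ≤ ENNReal.ofReal M := fun z => by
    rw [← ofReal_norm]
    exact ENNReal.ofReal_le_ofReal (hf.bound z)
  calc (∫⁻ x in Ioo (-1 : ℝ) 1 ×ˢ Ioo (-1 : ℝ) 1, ‖f x‖ₑ ^ (4 : ℝ)) ^ (1 / 4 : ℝ)
      ≤ (∫⁻ _ in Ioo (-1 : ℝ) 1 ×ˢ Ioo (-1 : ℝ) 1, ENNReal.ofReal M ^ (4 : ℝ)) ^ (1 / 4 : ℝ) := by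
        gcongr with z
        exact h1 z
    _ = (4 : ℝ≥0∞) ^ (1 / 4 : ℝ) * ENNReal.ofReal M := by
        rw [lintegral_const, Measure.restrict_apply_univ, vol_box,
          ENNReal.mul_rpow_of_nonneg _ _ (by norm_num), ← ENNReal.rpow_mul, mul_comm]
        norm_num
    _ ≤ 2 * ENNReal.ofReal M := by
        gcongr
        calc (4 : ℝ≥0∞) ^ (1 / 4 : ℝ) ≤ (16 : ℝ≥0∞) ^ (1 / 4 : ℝ) := by
              gcongr
              norm_num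
          _ = 2 := by
              have : (16 : ℝ≥0∞) = 2 ^ (4 : ℝ) := by
                rw [show (4 : ℝ) = ((4 : ℕ) : ℝ) by norm_num, ENNReal.rpow_natCast]
                norm_num
              rw [this, ← ENNReal.rpow_mul]
              norm_num

theorem sw {f : ℝ × ℝ → ℂ} {M : ℝ} (hf : Gd f M) : Gd (fun x => f x.swap) M where
  meas := hf.meas.comp measurable_swap
  bound z := hf.bound _
  supp x hx := hf.supp _ (by simpa [add_comm] using hx)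

theorem sw4 {f : ℝ × ℝ → ℂ} {M : ℝ} (hf : Gd f M) (p : ℝ) :
    ∫⁻ x : ℝ × ℝ, ‖f x.swap‖ₑ ^ p = ∫⁻ x, ‖f x‖ₑ ^ p := by
  have h := (Measure.measurePreserving_swap (μ := (volume : Measure ℝ))
    (ν := (volume : Measure ℝ))).lintegral_comp (hf.meas.enorm.pow_const p)
  rw [← Measure.volume_eq_prod] at h
  exact h

theorem card2 : ∀ s : Finset (Fin 3), s.card = 2 → s = {0, 1} ∨ s = {0, 2} ∨ s = {1, 2} := by
  decide

theorem card1 : ∀ s : Finset (Fin 3), s.card = 1 → s = {0} ∨ s = {1} ∨ s = {2} := by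
  decide

theorem pow24 (C : ℝ≥0) (q : ℝ) (hq : 0 < q) (f : ℝ × ℝ → ℂ) :
    (C : ℝ≥0∞) * (∫⁻ x, ‖f x‖ₑ ^ 4) ^ (q / 4) = (((C ^ (1 / q) : ℝ≥0) : ℝ≥0∞) * N4 f) ^ q := by
  unfold N4
  rw [ENNReal.mul_rpow_of_nonneg _ _ hq.le, ← ENNReal.rpow_mul]
  congr 1
  · rw [← ENNReal.coe_rpow_of_nonneg _ hq.le, ← NNReal.rpow_mul,
      one_div_mul_cancel hq.ne', NNReal.rpow_one]
  · have e1 : (1 / 4 : ℝ) * q = q / 4 := by ring
    rw [e1]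
    congr 1
    refine lintegral_congr fun x => ?_
    rw [← ENNReal.rpow_natCast]
    norm_num

theorem pvpair (q : ℝ) (hq : 4 < q) : ∃ C : ℝ≥0, ∀ (f : ℝ × ℝ → ℂ) (M : ℝ), Gd f M →
    ∀ s : Finset (Fin 3), s.card = 2 → ∀ x₀ : Fin 3 → ℝ,
    mg s (fun x => (mg sᶜ (fun x => FE f x ^ (2 : ℝ)) x) ^ (q / 2)) x₀ ≤ (C * N4 f) ^ q := by
  obtain ⟨C1, hC1⟩ := ex_1t parabola
    (fun p hp h hm => Pool.Agent.TH989.FN.minkowski p hp h hm) q hq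
  obtain ⟨C2, hC2⟩ := Pool.Agent.TH494.FN.ex_12 Pool.Agent.TH554.J1595.circle
    (fun p hp h hm => Pool.Agent.TH989.FN.minkowski p hp h hm) q hq
  have hq0 : 0 < q := by linarith
  refine ⟨C1 ^ (1 / q) + C2 ^ (1 / q), ?_⟩
  intro f M hf s hs x₀
  have hm2 : Measurable fun x => FE f x ^ (2 : ℝ) := (FE_meas f hf.meas).pow_const _
  have h2 : ∀ z : ℝ≥0∞, z ^ (2 : ℝ) = z ^ 2 := fun z => by
    rw [← ENNReal.rpow_natCast]; norm_num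
  rcases card2 s hs with rfl | rfl | rfl
  · rw [mg3 0 1 2 (by decide) (by decide) (by decide) _ hm2]
    have h3 := hC2 f hf.meas ⟨M, hf.bound⟩ hf.supp
    rw [pow24 C2 q hq0] at h3
    have h4 : ∀ a b c : ℝ, FE f (pt3 0 1 a b c) ^ (2 : ℝ) =
        ‖Pool.Agent.TH494.FN.ex f a b c‖ₑ ^ 2 := fun a b c => h2 _
    simp_rw [h4]
    refine h3.trans ?_
    gcongr
    exact le_add_self
  · rw [mg3 0 2 1 (by decide) (by decide) (by decide) _ hm2]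
    have h3 := hC1 f hf.meas ⟨M, hf.bound⟩ hf.supp
    rw [pow24 C1 q hq0] at h3
    have h4 : ∀ a b c : ℝ, FE f (pt3 0 2 a b c) ^ (2 : ℝ) =
        ‖ex f a c b‖ₑ ^ 2 := fun a b c => h2 _
    simp_rw [h4]
    refine h3.trans ?_
    gcongr
    exact le_self_add
  · rw [mg3 1 2 0 (by decide) (by decide) (by decide) _ hm2]
    have h3 := hC1 _ (sw hf).meas ⟨M, (sw hf).bound⟩ (sw hf).supp
    rw [pow24 C1 q hq0] at h3
    have h5 : N4 (fun x => f x.swap) = N4 f := by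
      unfold N4
      rw [sw4 hf]
    rw [h5] at h3
    have h4 : ∀ a b c : ℝ, FE f (pt3 1 2 a b c) ^ (2 : ℝ) =
        ‖ex (fun x => f x.swap) a c b‖ₑ ^ 2 := fun a b c => by
      rw [ex_swap, h2]
      rfl
    simp_rw [h4]
    refine h3.trans ?_
    gcongr
    exact le_self_add

theorem pvsingle (r : ℝ) (hr : 2 < r) : ∃ C : ℝ≥0, ∀ (f : ℝ × ℝ → ℂ) (M : ℝ), Gd f M →
    ∀ s : Finset (Fin 3), s.card = 1 → ∀ x : Fin 3 → ℝ,
    mg sᶜ (fun x => FE f x ^ r) x ≤ (C * ENNReal.ofReal M) ^ r := by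
  obtain ⟨C1, hC1⟩ := Pool.Agent.TH89.J1620.ex_1 r hr
  obtain ⟨C2, hC2⟩ := Pool.Agent.TH89.J1620.ex_t r hr.le
  have hr0 : 0 < r := by linarith
  have hpw : ∀ (C : ℝ≥0) (M : ℝ), (C : ℝ≥0∞) * ENNReal.ofReal M ^ r =
      (((C ^ (1 / r) : ℝ≥0) : ℝ≥0∞) * ENNReal.ofReal M) ^ r := by
    intro C M
    rw [ENNReal.mul_rpow_of_nonneg _ _ hr0.le]
    congr 1
    rw [← ENNReal.coe_rpow_of_nonneg _ hr0.le, ← NNReal.rpow_mul,
      one_div_mul_cancel hr0.ne', NNReal.rpow_one]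
  refine ⟨C1 ^ (1 / r) + C2 ^ (1 / r), ?_⟩
  intro f M hf s hs x
  have hm2 : Measurable fun x => FE f x ^ r := (FE_meas f hf.meas).pow_const _
  rcases card1 s hs with rfl | rfl | rfl
  · rw [mg3' 1 2 0 (by decide) (by decide) (by decide) _ hm2]
    have h3 := hC1 f hf.meas M hf.bound hf.supp (x 0)
    rw [hpw] at h3
    have h4 : ∀ a b : ℝ, FE f (pt3 1 2 a b (x 0)) ^ r =
        ‖Pool.Agent.TH89.J1620.ex f (x 0) a b‖ₑ ^ r := fun a b => rfl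
    simp_rw [h4]
    refine h3.trans ?_
    gcongr
    exact le_self_add
  · rw [mg3' 0 2 1 (by decide) (by decide) (by decide) _ hm2]
    have h3 := hC1 _ (sw hf).meas M (sw hf).bound (sw hf).supp (x 1)
    rw [hpw] at h3
    have h4 : ∀ a b : ℝ, FE f (pt3 0 2 a b (x 1)) ^ r =
        ‖Pool.Agent.TH89.J1620.ex (fun x => f x.swap) (x 1) a b‖ₑ ^ r := fun a b => by
      have h5 : Pool.Agent.TH89.J1620.ex (fun x => f x.swap) (x 1) a b =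
        ex (fun x => f x.swap) (x 1) a b := rfl
      rw [h5, ex_swap]
      rfl
    simp_rw [h4]
    refine h3.trans ?_
    gcongr
    exact le_self_add
  · rw [mg3' 0 1 2 (by decide) (by decide) (by decide) _ hm2]
    have h3 := hC2 f hf.meas M hf.bound hf.supp (x 2)
    rw [hpw] at h3
    have h4 : ∀ a b : ℝ, FE f (pt3 0 1 a b (x 2)) ^ r =
        ‖Pool.Agent.TH89.J1620.ex f a b (x 2)‖ₑ ^ r := fun a b => rfl
    simp_rw [h4]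
    refine h3.trans ?_
    gcongr
    exact le_add_self

/-- the time vertex in terms of the `L⁴` norm -/
theorem pvtime (r : ℝ) (hr : 2 < r) : ∃ C : ℝ≥0, ∀ (f : ℝ × ℝ → ℂ) (M : ℝ), Gd f M →
    ∀ x : Fin 3 → ℝ, mg ({2} : Finset (Fin 3))ᶜ (fun x => FE f x ^ r) x ≤ (C * N4 f) ^ r := by
  obtain ⟨K, hK⟩ := ex_t2
  have hr0 : 0 < r := by linarith
  obtain ⟨D, hD⟩ : ∃ D : ℝ≥0, (D : ℝ≥0∞) =
      ((4 : ℝ≥0∞) ^ (1 - (1 : ℝ) / 4)) ^ (r - 2) * (K * (K * (4 : ℝ≥0∞) ^ (1 - (2 : ℝ) / 4))) := by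
    refine ⟨(((4 : ℝ≥0∞) ^ (1 - (1 : ℝ) / 4)) ^ (r - 2) *
      (K * (K * (4 : ℝ≥0∞) ^ (1 - (2 : ℝ) / 4)))).toNNReal, ENNReal.coe_toNNReal ?_⟩
    refine ENNReal.mul_ne_top ?_ (ENNReal.mul_ne_top ENNReal.coe_ne_top
      (ENNReal.mul_ne_top ENNReal.coe_ne_top ?_))
    · exact ENNReal.rpow_ne_top_of_nonneg (by linarith)
        (ENNReal.rpow_ne_top_of_nonneg (by norm_num) (by norm_num))
    · exact ENNReal.rpow_ne_top_of_nonneg (by norm_num) (by norm_num)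
  refine ⟨D ^ (1 / r), ?_⟩
  intro f M hf x
  have hm2 : Measurable fun x => FE f x ^ r := (FE_meas f hf.meas).pow_const _
  rw [mg3' 0 1 2 (by decide) (by decide) (by decide) _ hm2]
  have h4 : ∀ a b : ℝ, FE f (pt3 0 1 a b (x 2)) ^ r = ‖ex f a b (x 2)‖ₑ ^ r := fun a b => rfl
  simp_rw [h4]
  have h5 : ∀ a b, ‖ex f a b (x 2)‖ₑ ≤ (4 : ℝ≥0∞) ^ (1 - (1 : ℝ) / 4) * N4 f := fun a b =>
    (ex_le1 f a b (x 2)).trans ((low_le hf 1 one_pos (by norm_num)).trans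
      (by rw [ENNReal.rpow_one]))
  have h6 : ∀ a b, ‖ex f a b (x 2)‖ₑ ^ r ≤
      ((4 : ℝ≥0∞) ^ (1 - (1 : ℝ) / 4) * N4 f) ^ (r - 2) * ‖ex f a b (x 2)‖ₑ ^ (2 : ℕ) := by
    intro a b
    have e1 : ‖ex f a b (x 2)‖ₑ ^ r =
        ‖ex f a b (x 2)‖ₑ ^ (r - 2) * ‖ex f a b (x 2)‖ₑ ^ (2 : ℕ) := by
      rw [← ENNReal.rpow_natCast, ← ENNReal.rpow_add_of_nonneg _ _ (by linarith) (by norm_num)]
      congr 1
      push_cast
      ring
    rw [e1]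
    gcongr
    exact h5 a b
  have hfin : ((4 : ℝ≥0∞) ^ (1 - (1 : ℝ) / 4) * N4 f) ^ (r - 2) ≠ ⊤ := by
    refine ENNReal.rpow_ne_top_of_nonneg (by linarith) (ENNReal.mul_ne_top
      (ENNReal.rpow_ne_top_of_nonneg (by norm_num) (by norm_num)) ?_)
    exact ((N4_le hf).trans_lt (ENNReal.mul_lt_top (by norm_num) ENNReal.ofReal_lt_top)).ne
  have h7 := hK f hf.meas M hf.bound hf.supp (x 2)
  have h8 : ∫⁻ x : ℝ × ℝ, ‖f x‖ₑ ^ (2 : ℕ) ≤ (4 : ℝ≥0∞) ^ (1 - (2 : ℝ) / 4) * N4 f ^ (2 : ℝ) := by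
    refine le_trans (le_of_eq ?_) (low_le hf 2 two_pos (by norm_num))
    refine lintegral_congr fun x => ?_
    rw [← ENNReal.rpow_natCast]
    norm_num
  calc ∫⁻ a : ℝ, ∫⁻ b : ℝ, ‖ex f a b (x 2)‖ₑ ^ r
      ≤ ∫⁻ a : ℝ, ∫⁻ b : ℝ, ((4 : ℝ≥0∞) ^ (1 - (1 : ℝ) / 4) * N4 f) ^ (r - 2) *
          ‖ex f a b (x 2)‖ₑ ^ (2 : ℕ) := lintegral_mono fun a => lintegral_mono fun b => h6 a b
    _ = ((4 : ℝ≥0∞) ^ (1 - (1 : ℝ) / 4) * N4 f) ^ (r - 2) *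
          ∫⁻ a : ℝ, ∫⁻ b : ℝ, ‖ex f a b (x 2)‖ₑ ^ (2 : ℕ) := by
        simp_rw [lintegral_const_mul' _ _ hfin]
    _ ≤ ((4 : ℝ≥0∞) ^ (1 - (1 : ℝ) / 4) * N4 f) ^ (r - 2) *
          (K * (K * ((4 : ℝ≥0∞) ^ (1 - (2 : ℝ) / 4) * N4 f ^ (2 : ℝ)))) := by
        gcongr
        refine h7.trans ?_
        gcongr
    _ = D * N4 f ^ r := by
        rw [hD, ENNReal.mul_rpow_of_nonneg _ _ (by linarith)]
        have e1 : N4 f ^ r = N4 f ^ (r - 2) * N4 f ^ (2 : ℝ) := by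
          rw [← ENNReal.rpow_add_of_nonneg _ _ (by linarith) (by norm_num)]
          congr 1
          ring
        rw [e1]
        ring
    _ = _ := by
        rw [ENNReal.mul_rpow_of_nonneg _ _ hr0.le]
        congr 1
        rw [← ENNReal.coe_rpow_of_nonneg _ hr0.le, ← NNReal.rpow_mul,
          one_div_mul_cancel hr0.ne', NNReal.rpow_one]

end Pool.Agent.TH278.FN
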