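import Mathlib
import Pool.Agent.TH278.FN.Abs3
import Pool.Agent.H438R2.BR.T9
set_option autoImplicit false

/-! Marginals and concatenation of coordinates. -/

namespace Pool.Agent.TH278.FN

open MeasureTheory Set
open scoped ENNReal
open Pool.Agent.H789R2.FR (E)
open Pool.Agent.H438R2.BR (J)

theorem lint_pi_congr {A B : Type*} [Fintype A] [Fintype B] (e : A ≃ B) (Φ : (B → ℝ) → ℝ≥0∞)
    (hΦ : Measurable Φ) : ∫⁻ z : B → ℝ, Φ z = ∫⁻ u : A → ℝ, Φ (fun b => u (e.symm b)) := by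
  have h := volume_measurePreserving_piCongrLeft (fun _ : B => ℝ) e
  rw [← h.lintegral_comp hΦ]
  refine lintegral_congr fun u => ?_
  congr 1
  ext b
  obtain ⟨a, rfl⟩ := e.surjective b
  rw [MeasurableEquiv.coe_piCongrLeft, Equiv.piCongrLeft_apply_apply, e.symm_apply_apply]

theorem lint_E {k : ℕ} (Φ : (Fin k → ℝ) → ℝ≥0∞) (hΦ : Measurable Φ) :
    ∫⁻ z : Fin k → ℝ, Φ z = ∫⁻ x : E k, Φ (fun i => x i) :=
  ((EuclideanSpace.volume_preserving_symm_measurableEquiv_toLp (Fin k)).lintegral_comp hΦ).symm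

theorem mg_eq {n k : ℕ} (s : Finset (Fin n)) (e : Fin k ≃ s) (G : (Fin n → ℝ) → ℝ≥0∞)
    (hG : Measurable G) (x₀ : Fin n → ℝ) :
    mg s G x₀ = ∫⁻ x : E k, G (Function.updateFinset x₀ s fun i => x (e.symm i)) := by
  have h1 : Measurable fun z : s → ℝ => G (Function.updateFinset x₀ s z) :=
    hG.comp measurable_updateFinset
  unfold mg lmarginal
  have h2 := lint_pi_congr e (fun z : s → ℝ => G (Function.updateFinset x₀ s z)) h1
  have h3 : Measurable fun u : Fin k → ℝ =>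
      G (Function.updateFinset x₀ s (fun b => u (e.symm b))) := h1.comp (by fun_prop)
  rw [lint_E _ h3] at h2
  exact h2

theorem mg_mg {n k d : ℕ} (σ : Fin (k + d) ≃ Fin n) (s : Finset (Fin n))
    (hs : ∀ a : Fin k, σ (Fin.castAdd d a) ∈ s) (hs' : ∀ b : Fin d, σ (Fin.natAdd k b) ∉ s)
    (Ψ : (Fin n → ℝ) → ℝ≥0∞) (hΨ : Measurable Ψ) (H : ℝ≥0∞ → ℝ≥0∞) (hH : Measurable H)
    (x₀ : Fin n → ℝ) :
    mg s (fun x => H (mg sᶜ Ψ x)) x₀ =
      ∫⁻ x : E k, H (∫⁻ y : E d, Ψ (fun i => (J x y) (σ.symm i))) := by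
  classical
  have hb1 : Function.Bijective fun a : Fin k => (⟨σ (Fin.castAdd d a), hs a⟩ : s) := by
    constructor
    · intro a b hab
      have := congrArg Subtype.val hab
      simpa using this
    · rintro ⟨i, hi⟩
      obtain ⟨j, rfl⟩ := σ.surjective i
      induction j using Fin.addCases with
      | left a => exact ⟨a, rfl⟩
      | right b => exact absurd hi (hs' b)
  have hb2 : Function.Bijective fun b : Fin d =>
      (⟨σ (Fin.natAdd k b), Finset.mem_compl.2 (hs' b)⟩ : (sᶜ : Finset (Fin n))) := by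
    constructor
    · intro a b hab
      have := congrArg Subtype.val hab
      simpa using this
    · rintro ⟨i, hi⟩
      obtain ⟨j, rfl⟩ := σ.surjective i
      induction j using Fin.addCases with
      | left a => exact absurd (hs a) (Finset.mem_compl.1 hi)
      | right b => exact ⟨b, rfl⟩
  obtain ⟨e1, he1⟩ : ∃ e1 : Fin k ≃ s, ∀ a, e1 a = ⟨σ (Fin.castAdd d a), hs a⟩ :=
    ⟨Equiv.ofBijective _ hb1, fun a => rfl⟩
  obtain ⟨e2, he2⟩ : ∃ e2 : Fin d ≃ (sᶜ : Finset (Fin n)),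
      ∀ b, e2 b = ⟨σ (Fin.natAdd k b), Finset.mem_compl.2 (hs' b)⟩ :=
    ⟨Equiv.ofBijective _ hb2, fun a => rfl⟩
  have hm1 : Measurable (mg sᶜ Ψ) := mg_meas _ hΨ
  have hm2 : Measurable fun x => H (mg sᶜ Ψ x) := hH.comp hm1
  rw [mg_eq s e1 _ hm2 x₀]
  refine lintegral_congr fun x => ?_
  congr 1
  rw [mg_eq sᶜ e2 Ψ hΨ]
  refine lintegral_congr fun y => ?_
  congr 1
  ext i
  obtain ⟨j, rfl⟩ := σ.surjective i
  rw [σ.symm_apply_apply]
  induction j using Fin.addCases with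
  | left a =>
    have h1 : σ (Fin.castAdd d a) ∉ sᶜ := fun h => Finset.mem_compl.1 h (hs a)
    unfold Function.updateFinset
    rw [dif_neg h1, dif_pos (hs a), ← he1 a]
    simp [J]
  | right b =>
    have h1 : σ (Fin.natAdd k b) ∈ sᶜ := Finset.mem_compl.2 (hs' b)
    unfold Function.updateFinset
    rw [dif_pos h1, ← he2 b]
    simp [J]

end Pool.Agent.TH278.FN
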