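import Mathlib
import Pool.Agent.TH278.FN.Conv
import Pool.Agent.H789R2.FR.Sph
set_option autoImplicit false

/-! Vertices on the sphere: from the standard splitting to any set of coordinates. -/

namespace Pool.Agent.TH278.FN

open MeasureTheory Set Complex
open scoped ENNReal NNReal RealInnerProductSpace
open Pool.Agent.H789R2.FR (E sg T sg_finite sg_inv)
open Pool.Agent.H438R2.BR (J J_mp)

theorem T_meas {n : ℕ} (g : E n → ℂ) (hg : Measurable g) : Measurable (T g) := by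
  unfold T
  have : IsFiniteMeasure (sg n) := sg_finite _
  apply StronglyMeasurable.measurable
  apply StronglyMeasurable.integral_prod_right (f := fun (x z : E n) =>
    Complex.exp (-((⟪x, z⟫ : ℝ) : ℂ) * I) * g z)
  apply Measurable.stronglyMeasurable
  change Measurable fun p : E n × E n =>
    Complex.exp (-((⟪p.1, p.2⟫ : ℝ) : ℂ) * I) * g p.2
  have h1 : Measurable fun p : E n × E n => g p.2 := hg.comp measurable_snd
  have h2 : Measurable fun p : E n × E n => (⟪p.1, p.2⟫ : ℝ) :=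
    (continuous_inner (𝕜 := ℝ)).measurable
  have h3 : Measurable fun p : E n × E n =>
      Complex.exp (-((⟪p.1, p.2⟫ : ℝ) : ℂ) * I) :=
    Complex.measurable_exp.comp ((Complex.measurable_ofReal.comp h2).neg.mul_const I)
  exact h3.mul h1

theorem exp_norm (t : ℝ) : ‖Complex.exp (-(t : ℂ) * I)‖ = 1 := by
  have h : -(t : ℂ) * I = ((-t : ℝ) : ℂ) * I := by push_cast; ring
  rw [h, Complex.norm_exp_ofReal_mul_I]

theorem T_le {n : ℕ} (g : E n → ℂ) (M : ℝ) (hM : ∀ w, ‖g w‖ ≤ M) (x : E n) :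
    ‖T g x‖ ≤ M * (sg n).real univ := by
  have : IsFiniteMeasure (sg n) := sg_finite _
  unfold T
  apply norm_integral_le_of_norm_le_const
  refine Filter.Eventually.of_forall fun z => ?_
  rw [norm_mul, exp_norm, one_mul]
  exact hM _

theorem T_le1 {n : ℕ} (g : E n → ℂ) (x : E n) :
    ‖T g x‖ₑ ≤ ∫⁻ w, ‖g w‖ₑ ∂(sg n) := by
  unfold T
  refine (enorm_integral_le_lintegral_enorm _).trans (lintegral_mono fun w => ?_)
  rw [enorm_mul]
  have : ‖Complex.exp (-((⟪x, w⟫ : ℝ) : ℂ) * I)‖ₑ = 1 := by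
    rw [← ofReal_norm, exp_norm, ENNReal.ofReal_one]
  rw [this, one_mul]

theorem T_comp {n : ℕ} (L : E n ≃ₗᵢ[ℝ] E n) (g : E n → ℂ) (x : E n) :
    T (fun w => g (L w)) x = T g (L x) := by
  unfold T
  rw [← (sg_inv L).integral_comp L.toHomeomorph.measurableEmbedding
    (fun z => Complex.exp (-((⟪L x, z⟫ : ℝ) : ℂ) * I) * g z)]
  congr 1
  ext w
  rw [L.inner_map_map]

theorem J_smul {k m : ℕ} (c : ℝ) (x : E k) (y : E m) : J (c • x) (c • y) = c • J x y := by
  ext i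
  induction i using Fin.addCases with
  | left a => simp [J]
  | right b => simp [J]

/-- the permutation of coordinates -/
noncomputable def Rp {n : ℕ} (σ : Fin n ≃ Fin n) : E n ≃ₗᵢ[ℝ] E n :=
  LinearIsometryEquiv.piLpCongrLeft 2 ℝ ℝ σ

theorem Rp_apply {n : ℕ} (σ : Fin n ≃ Fin n) (v : E n) :
    Rp σ v = WithLp.toLp 2 (fun i => v (σ.symm i)) := by
  rfl

theorem scale {k : ℕ} (c : ℝ) (hc : 1 ≤ c) (Φ : E k → ℝ≥0∞) (hΦ : Measurable Φ) :
    ∫⁻ x, Φ (c • x) ≤ ∫⁻ x, Φ x := by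
  have hc0 : c ≠ 0 := by linarith
  have h3 := Measure.map_addHaar_smul (volume : Measure (E k)) hc0
  have h4 : ∫⁻ x : E k, Φ x ∂(Measure.map (c • · : E k → E k) volume) =
      ∫⁻ x, Φ (c • x) := lintegral_map hΦ (measurable_const_smul _)
  rw [← h4, h3, lintegral_smul_measure, smul_eq_mul]
  have h5 : ENNReal.ofReal |(c ^ Module.finrank ℝ (E k))⁻¹| ≤ 1 := by
    rw [ENNReal.ofReal_le_one, abs_of_nonneg (by positivity)]
    apply inv_le_one_of_one_le₀
    exact one_le_pow₀ hc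
  calc _ ≤ 1 * ∫⁻ x : E k, Φ x := by gcongr
    _ = _ := one_mul _

/-- a permutation that puts `s` first -/
theorem exists_perm (k d : ℕ) (s : Finset (Fin (k + d))) (hs : s.card = k) :
    ∃ σ : Fin (k + d) ≃ Fin (k + d), (∀ a : Fin k, σ (Fin.castAdd d a) ∈ s) ∧
      (∀ b : Fin d, σ (Fin.natAdd k b) ∉ s) := by
  have hs' : sᶜ.card = d := by
    rw [Finset.card_compl, hs, Fintype.card_fin]
    omega
  refine ⟨finSumFinEquiv.symm.trans (finSumEquivOfFinset hs hs'), fun a => ?_, fun b => ?_⟩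
  · rw [Equiv.trans_apply, finSumFinEquiv_symm_apply_castAdd, finSumEquivOfFinset_inl]
    exact Finset.orderEmbOfFin_mem _ _ _
  · rw [Equiv.trans_apply, finSumFinEquiv_symm_apply_natAdd, finSumEquivOfFinset_inr]
    have := Finset.orderEmbOfFin_mem (sᶜ) hs' b
    exact Finset.mem_compl.1 this

/-- `F x = |T G (2π x)|` -/
noncomputable def FG {n : ℕ} (G : E n → ℂ) (x : Fin n → ℝ) : ℝ≥0∞ :=
  ‖T G ((2 * Real.pi) • (WithLp.toLp 2 x : E n))‖ₑ

theorem FG_meas {n : ℕ} (G : E n → ℂ) (hG : Measurable G) : Measurable (FG G) := by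
  unfold FG
  have h1 : Measurable fun x : Fin n → ℝ => (2 * Real.pi) • (WithLp.toLp 2 x : E n) := by
    fun_prop
  exact ((T_meas G hG).comp h1).enorm

theorem FG_perm {k d : ℕ} (σ : Fin (k + d) ≃ Fin (k + d)) (G : E (k + d) → ℂ) (x : E k)
    (y : E d) : FG G (fun i => (J x y) (σ.symm i)) =
      ‖T (fun w => G (Rp σ w)) (J ((2 * Real.pi) • x) ((2 * Real.pi) • y))‖ₑ := by
  rw [T_comp, J_smul, map_smul, Rp_apply]
  rfl

theorem one_le_two_pi : (1 : ℝ) ≤ 2 * Real.pi := by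
  linarith [Real.pi_gt_three]

theorem meas_TJ {k d : ℕ} (G : E (k + d) → ℂ) (hG : Measurable G) :
    Measurable fun p : E k × E d => ‖T G (J p.1 p.2)‖ₑ :=
  ((T_meas G hG).comp (J_mp k d).measurable).enorm

theorem lint_perm {n : ℕ} (σ : Fin n ≃ Fin n) (G : E n → ℂ) (hG : Measurable G) (p : ℝ) :
    ∫⁻ z, ‖G (Rp σ z)‖ₑ ^ p ∂(sg n) = ∫⁻ z, ‖G z‖ₑ ^ p ∂(sg n) :=
  (sg_inv (Rp σ)).lintegral_comp (hG.enorm.pow_const p)

end Pool.Agent.TH278.FN
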