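import Mathlib
import Pool.Agent.TH278.FN.SphA
set_option autoImplicit false

/-! Vertices on the sphere: from the standard splitting to any set of coordinates. -/

namespace Pool.Agent.TH278.FN

open MeasureTheory Set Complex
open scoped ENNReal NNReal RealInnerProductSpace
open Pool.Agent.H789R2.FR (E sg T sg_finite sg_inv)
open Pool.Agent.H438R2.BR (J J_mp)

theorem scale_in {k d : ℕ} (c : ℝ) (hc : 1 ≤ c) (Ψ : E k → E d → ℝ≥0∞)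
    (hΨ : Measurable (Function.uncurry Ψ)) (q : ℝ) (hq : 0 ≤ q) :
    ∫⁻ x : E k, (∫⁻ y : E d, Ψ (c • x) (c • y)) ^ q ≤
      ∫⁻ x : E k, (∫⁻ y : E d, Ψ x y) ^ q := by
  have h1 : ∀ x : E k, ∫⁻ y : E d, Ψ x (c • y) ≤ ∫⁻ y : E d, Ψ x y := fun x =>
    scale c hc (Ψ x) (hΨ.comp (measurable_const.prodMk measurable_id))
  have h2 : Measurable fun x : E k => (∫⁻ y : E d, Ψ x y) ^ q :=
    (hΨ.lintegral_prod_right').pow_const _
  refine le_trans ?_ (scale c hc _ h2)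
  refine lintegral_mono fun x => ?_
  exact ENNReal.rpow_le_rpow (h1 _) hq

/-- `|T g (x, y)|^r` -/
noncomputable def TJ {k d : ℕ} (r : ℝ) (g : E (k + d) → ℂ) (x : E k) (y : E d) : ℝ≥0∞ :=
  ‖T g (J x y)‖ₑ ^ r

theorem TJ_meas {k d : ℕ} (r : ℝ) (g : E (k + d) → ℂ) (hg : Measurable g) :
    Measurable (Function.uncurry (TJ (k := k) (d := d) r g)) :=
  (meas_TJ g hg).pow_const r

theorem FG_perm' {k d : ℕ} (σ : Fin (k + d) ≃ Fin (k + d)) (G : E (k + d) → ℂ) (r : ℝ) (x : E k)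
    (y : E d) : FG G (fun i => (J x y) (σ.symm i)) ^ r =
      TJ r (fun w => G (Rp σ w)) ((2 * Real.pi) • x) ((2 * Real.pi) • y) := by
  rw [FG_perm]
  rfl

theorem FG_perm'' {k d : ℕ} (σ : Fin (k + d) ≃ Fin (k + d)) (G : E (k + d) → ℂ) (r : ℝ) (x : E k)
    (y : E d) (c : ℝ) (hc : c = 2 * Real.pi) : FG G (fun i => (J x y) (σ.symm i)) ^ r =
      TJ r (fun w => G (Rp σ w)) (c • x) (c • y) := by
  subst hc
  exact FG_perm' σ G r x y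

theorem mg_TJ {k d : ℕ} (s : Finset (Fin (k + d))) (hs : s.card = k) :
    ∃ σ : Fin (k + d) ≃ Fin (k + d), ∀ (G : E (k + d) → ℂ), Measurable G → ∀ (r p : ℝ), 0 ≤ p →
      ∀ x₀ : Fin (k + d) → ℝ,
      mg s (fun x => (mg sᶜ (fun x => FG G x ^ r) x) ^ p) x₀ ≤
        ∫⁻ x : E k, (∫⁻ y : E d, TJ r (fun w => G (Rp σ w)) x y) ^ p := by
  obtain ⟨σ, hσ1, hσ2⟩ := exists_perm k d s hs
  refine ⟨σ, fun G hG r p hp x₀ => ?_⟩
  have hm2 : Measurable fun x => FG G x ^ r := (FG_meas G hG).pow_const _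
  rw [mg_mg σ s hσ1 hσ2 _ hm2 (fun t => t ^ p) (by fun_prop) x₀]
  have hgm : Measurable fun w => G (Rp σ w) := hG.comp (Rp σ).continuous.measurable
  have h1 := scale_in (k := k) (d := d) (2 * Real.pi) one_le_two_pi
    (TJ r (fun w => G (Rp σ w))) (TJ_meas r _ hgm) p hp
  refine le_trans (le_of_eq ?_) h1
  refine lintegral_congr fun x => ?_
  congr 1
  refine lintegral_congr fun y => ?_
  exact FG_perm' σ G r x y

theorem mg_compl {n k d : ℕ} (σ : Fin (k + d) ≃ Fin n) (s : Finset (Fin n))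
    (hs : ∀ a : Fin k, σ (Fin.castAdd d a) ∈ s) (hs' : ∀ b : Fin d, σ (Fin.natAdd k b) ∉ s)
    (Ψ : (Fin n → ℝ) → ℝ≥0∞) (hΨ : Measurable Ψ) (x : Fin n → ℝ) :
    ∃ x'' : E k, mg sᶜ Ψ x = ∫⁻ y : E d, Ψ (fun i => (J x'' y) (σ.symm i)) := by
  have hb2 : Function.Bijective fun b : Fin d =>
      (⟨σ (Fin.natAdd k b), Finset.mem_compl.2 (hs' b)⟩ : (sᶜ : Finset (Fin n))) := by
    constructor
    · intro a b hab
      have := congrArg Subtype.val hab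
      simpa using this
    · rintro ⟨i, hi⟩
      obtain ⟨j, rfl⟩ := σ.surjective i
      induction j using Fin.addCases with
      | left a => exact absurd (hs a) (Finset.mem_compl.1 hi)
      | right b => exact ⟨b, rfl⟩
  obtain ⟨e2, he2⟩ : ∃ e2 : Fin d ≃ (sᶜ : Finset (Fin n)),
      ∀ b, e2 b = ⟨σ (Fin.natAdd k b), Finset.mem_compl.2 (hs' b)⟩ :=
    ⟨Equiv.ofBijective _ hb2, fun a => rfl⟩
  obtain ⟨x'', hx''⟩ : ∃ x'' : E k, ∀ a, x'' a = x (σ (Fin.castAdd d a)) :=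
    ⟨WithLp.toLp 2 (fun a : Fin k => x (σ (Fin.castAdd d a))), fun a => rfl⟩
  refine ⟨x'', ?_⟩
  rw [mg_eq sᶜ e2 _ hΨ]
  refine lintegral_congr fun y => ?_
  congr 1
  ext i
  obtain ⟨j, rfl⟩ := σ.surjective i
  rw [σ.symm_apply_apply]
  induction j using Fin.addCases with
  | left a =>
    have h1 : σ (Fin.castAdd d a) ∉ sᶜ := fun h => Finset.mem_compl.1 h (hs a)
    unfold Function.updateFinset
    rw [dif_neg h1]
    simp [J, hx'']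
  | right b =>
    have h1 : σ (Fin.natAdd k b) ∈ sᶜ := Finset.mem_compl.2 (hs' b)
    unfold Function.updateFinset
    rw [dif_pos h1, ← he2 b]
    simp [J]

theorem mg_TJ' {k d : ℕ} (s : Finset (Fin (k + d))) (hs : s.card = k) :
    ∃ σ : Fin (k + d) ≃ Fin (k + d), ∀ (G : E (k + d) → ℂ), Measurable G → ∀ (r : ℝ),
      ∀ x : Fin (k + d) → ℝ, ∃ x' : E k,
      mg sᶜ (fun x => FG G x ^ r) x ≤ ∫⁻ y : E d, TJ r (fun w => G (Rp σ w)) x' y := by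
  obtain ⟨σ, hσ1, hσ2⟩ := exists_perm k d s hs
  refine ⟨σ, fun G hG r x => ?_⟩
  have hm2 : Measurable fun x => FG G x ^ r := (FG_meas G hG).pow_const _
  have hgm : Measurable fun w => G (Rp σ w) := hG.comp (Rp σ).continuous.measurable
  obtain ⟨x'', hx''⟩ := mg_compl σ s hσ1 hσ2 _ hm2 x
  obtain ⟨c, hc⟩ : ∃ c : ℝ, c = 2 * Real.pi := ⟨_, rfl⟩
  have hc1 : 1 ≤ c := by rw [hc]; exact one_le_two_pi
  refine ⟨c • x'', ?_⟩
  rw [hx'']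
  have h2 : Measurable (TJ (k := k) (d := d) r (fun w => G (Rp σ w)) (c • x'')) :=
    (TJ_meas r _ hgm).of_uncurry_left
  have h3 := scale c hc1 (TJ (k := k) (d := d) r (fun w => G (Rp σ w)) (c • x'')) h2
  refine le_trans (le_of_eq ?_) h3
  refine lintegral_congr fun y => ?_
  exact FG_perm'' σ G r x'' y c hc

/-- two coordinates -/
theorem vpair (n : ℕ)
    (hpair : ∀ d : ℕ, 1 ≤ d → ∀ q : ℝ, 4 < q → ∃ C : ℝ≥0, ∀ g : E (2 + d) → ℂ, Measurable g →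
      (∃ M : ℝ, ∀ z, ‖g z‖ ≤ M) →
      ∫⁻ x : E 2, (∫⁻ y : E d, ‖T g (J x y)‖ₑ ^ 2) ^ (q / 2) ≤
        C * (∫⁻ z, ‖g z‖ₑ ^ 4 ∂(sg (2 + d))) ^ (q / 4))
    (hn : 3 ≤ n) (q : ℝ) (hq : 4 < q) : ∃ C : ℝ≥0, ∀ G : E n → ℂ, Measurable G →
      (∃ M : ℝ, ∀ z, ‖G z‖ ≤ M) → ∀ s : Finset (Fin n), s.card = 2 → ∀ x₀ : Fin n → ℝ,
      mg s (fun x => (mg sᶜ (fun x => FG G x ^ (2 : ℝ)) x) ^ (q / 2)) x₀ ≤
        (C * (∫⁻ z, ‖G z‖ₑ ^ (4 : ℝ) ∂(sg n)) ^ (1 / 4 : ℝ)) ^ q := by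
  obtain ⟨d, rfl⟩ : ∃ d, n = 2 + d := ⟨n - 2, by omega⟩
  obtain ⟨C, hC⟩ := hpair d (by omega) q hq
  have hq0 : 0 < q := by linarith
  refine ⟨C ^ (1 / q), ?_⟩
  intro G hG hM s hs x₀
  obtain ⟨σ, hσ⟩ := mg_TJ s hs
  refine (hσ G hG 2 (q / 2) (by linarith) x₀).trans ?_
  have hgm : Measurable fun w => G (Rp σ w) := hG.comp (Rp σ).continuous.measurable
  have hgM : ∃ M : ℝ, ∀ z, ‖G (Rp σ z)‖ ≤ M := by
    obtain ⟨M, hM⟩ := hM
    exact ⟨M, fun z => hM _⟩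
  have h3 := hC _ hgm hgM
  have h4 : ∀ x : E 2, ∀ y : E d, ‖T (fun w => G (Rp σ w)) (J x y)‖ₑ ^ 2 =
      TJ 2 (fun w => G (Rp σ w)) x y := by
    intro x y
    unfold TJ
    rw [← ENNReal.rpow_natCast]
    norm_num
  simp_rw [h4] at h3
  refine h3.trans (le_of_eq ?_)
  have h5 : ∫⁻ z, ‖G (Rp σ z)‖ₑ ^ 4 ∂(sg (2 + d)) = ∫⁻ z, ‖G z‖ₑ ^ (4 : ℝ) ∂(sg (2 + d)) := by
    rw [← lint_perm σ G hG]
    refine lintegral_congr fun z => ?_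
    rw [← ENNReal.rpow_natCast]
    norm_num
  rw [h5, ENNReal.mul_rpow_of_nonneg _ _ hq0.le, ← ENNReal.rpow_mul]
  congr 1
  · rw [← ENNReal.coe_rpow_of_nonneg _ hq0.le, ← NNReal.rpow_mul,
      one_div_mul_cancel hq0.ne', NNReal.rpow_one]
  · congr 1
    ring

theorem vsingle (n : ℕ)
    (hsing : ∀ m : ℕ, 2 ≤ m → ∀ r : ℝ, 2 < r → ∃ C : ℝ≥0, ∀ g : E (1 + m) → ℂ, Measurable g →
      ∀ M : ℝ, (∀ z, ‖g z‖ ≤ M) → ∀ x : E 1,
      ∫⁻ y : E m, ‖T g (J x y)‖ₑ ^ r ≤ C * ENNReal.ofReal M ^ r)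
    (hn : 3 ≤ n) (r : ℝ) (hr : 2 < r) : ∃ C : ℝ≥0, ∀ G : E n → ℂ, Measurable G →
      ∀ M : ℝ, (∀ z, ‖G z‖ ≤ M) → ∀ s : Finset (Fin n), s.card = 1 → ∀ x : Fin n → ℝ,
      mg sᶜ (fun x => FG G x ^ r) x ≤ (C * ENNReal.ofReal M) ^ r := by
  obtain ⟨d, rfl⟩ : ∃ d, n = 1 + d := ⟨n - 1, by omega⟩
  obtain ⟨C, hC⟩ := hsing d (by omega) r hr
  have hr0 : 0 < r := by linarith
  refine ⟨C ^ (1 / r), ?_⟩
  intro G hG M hM s hs x
  obtain ⟨σ, hσ⟩ := mg_TJ' s hs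
  obtain ⟨x', hx'⟩ := hσ G hG r x
  refine hx'.trans ?_
  have hgm : Measurable fun w => G (Rp σ w) := hG.comp (Rp σ).continuous.measurable
  refine (hC _ hgm M (fun z => hM _) x').trans (le_of_eq ?_)
  rw [ENNReal.mul_rpow_of_nonneg _ _ hr0.le]
  congr 1
  rw [← ENNReal.coe_rpow_of_nonneg _ hr0.le, ← NNReal.rpow_mul,
    one_div_mul_cancel hr0.ne', NNReal.rpow_one]

end Pool.Agent.TH278.FN
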