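import Mathlib
import Pool.Agent.TH278.FN.SphB
import Pool.Agent.TH278.FN.Abs4
import Pool.Agent.TH304.J1597
import Pool.Agent.TH554.J1595
import Pool.Agent.TH445.J1616
import Pool.Agent.TH941.FN.J1617
import Pool.Agent.TH989.J1594
set_option autoImplicit false

/-! The sphere: the Finner form for bounded measurable functions on the whole space. -/

namespace Pool.Agent.TH278.FN

open MeasureTheory Set Complex
open scoped ENNReal NNReal RealInnerProductSpace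
open Pool.Agent.H789R2.FR (E sg T sg_finite sg_inv)
open Pool.Agent.H438R2.BR (J J_mp)

theorem hpair (d : ℕ) (hd : 1 ≤ d) (q : ℝ) (hq : 4 < q) :
    ∃ C : ℝ≥0, ∀ g : E (2 + d) → ℂ, Measurable g → (∃ M : ℝ, ∀ z, ‖g z‖ ≤ M) →
      ∫⁻ x : E 2, (∫⁻ y : E d, ‖T g (J x y)‖ₑ ^ 2) ^ (q / 2) ≤
        C * (∫⁻ z, ‖g z‖ₑ ^ 4 ∂(sg (2 + d))) ^ (q / 4) :=
  Pool.Agent.TH445.J1616.vertex_pair d hd Pool.Agent.TH554.J1595.circle
    (fun p hp h hm => Pool.Agent.TH989.FN.minkowski p hp h hm) (sg_arch d hd) q hq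

theorem hsing (m : ℕ) (hm : 2 ≤ m) (r : ℝ) (hr : 2 < r) :
    ∃ C : ℝ≥0, ∀ g : E (1 + m) → ℂ, Measurable g →
      ∀ M : ℝ, (∀ z, ‖g z‖ ≤ M) → ∀ x : E 1,
      ∫⁻ y : E m, ‖T g (J x y)‖ₑ ^ r ≤ C * ENNReal.ofReal M ^ r :=
  Pool.Agent.TH941.FN.vertex_single m hm (fun f hf => arch 1 m le_rfl (by omega) f hf) r hr

/-- the admissible families: blocks of one or two coordinates, total weight one at each
coordinate -/
structure Adm {n : ℕ} {ι : Type} (P : Finset ι) (S : ι → Finset (Fin n)) (w : ι → ℝ)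
    (f : ι → (Fin n → ℝ) → ℝ≥0∞) : Prop where
  meas : ∀ j ∈ P, Measurable (f j)
  dep : ∀ j ∈ P, DependsOn (f j) (S j)
  nonneg : ∀ j ∈ P, 0 ≤ w j
  cov : ∀ i, ∑ j ∈ P with i ∈ S j, w j = 1
  card : ∀ j ∈ P, (S j).card = 1 ∨ (S j).card = 2

theorem sphere_bdd (n : ℕ) (hn : 3 ≤ n) (q : ℝ) (hq : 2 * (n : ℝ) / (n - 1) < q) :
    ∃ C : ℝ≥0, ∀ (G : E n → ℂ) (M : ℝ), Measurable G → (∀ z, ‖G z‖ ≤ M) →
      ∀ {ι : Type} [DecidableEq ι] (P : Finset ι) (S : ι → Finset (Fin n)) (w : ι → ℝ)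
        (f : ι → (Fin n → ℝ) → ℝ≥0∞), Adm P S w f → ∀ x₀ : Fin n → ℝ,
      (∫⁻ x, FG G x * ∏ i ∈ P, f i x ^ (w i * (1 - 1 / q)) ≤
        C * ENNReal.ofReal M * ∏ i ∈ P, mg (S i) (f i) x₀ ^ (w i * (1 - 1 / q))) ∧
      ((∀ j ∈ P, (S j).card = 1 → w j = 0) →
        ∫⁻ x, FG G x * ∏ i ∈ P, f i x ^ (w i * (1 - 1 / q)) ≤
        C * (∫⁻ z, ‖G z‖ₑ ^ (4 : ℝ) ∂(sg n)) ^ (1 / 4 : ℝ) *
          ∏ i ∈ P, mg (S i) (f i) x₀ ^ (w i * (1 - 1 / q))) := by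
  obtain ⟨qv, r, hqv, hr, hmain⟩ := main_abs n (by omega) q hq
  obtain ⟨C2, hC2⟩ := vpair n hpair hn qv hqv
  obtain ⟨C1, hC1⟩ := vsingle n hsing hn r hr
  haveI := sg_finite n
  have hqv0 : 0 < qv := by linarith
  have hr0 : 0 < r := by linarith
  -- total mass
  obtain ⟨A, hA⟩ : ∃ A : ℝ≥0, sg n univ = A := ⟨(sg n univ).toNNReal,
    (ENNReal.coe_toNNReal (measure_ne_top _ _)).symm⟩
  -- L^4 norm of a bounded function
  have h4M : ∀ (G : E n → ℂ) (M : ℝ), (∀ z, ‖G z‖ ≤ M) →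
      (∫⁻ z, ‖G z‖ₑ ^ (4 : ℝ) ∂(sg n)) ^ (1 / 4 : ℝ) ≤
        ((A ^ (1 / 4 : ℝ) : ℝ≥0) : ℝ≥0∞) * ENNReal.ofReal M := by
    intro G M hM
    have h1 : ∀ z, ‖G z‖ₑ ≤ ENNReal.ofReal M := fun z => by
      rw [← ofReal_norm]
      exact ENNReal.ofReal_le_ofReal (hM z)
    calc (∫⁻ z, ‖G z‖ₑ ^ (4 : ℝ) ∂(sg n)) ^ (1 / 4 : ℝ)
        ≤ (∫⁻ z, ENNReal.ofReal M ^ (4 : ℝ) ∂(sg n)) ^ (1 / 4 : ℝ) := by
          gcongr with z
          exact h1 z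
      _ = _ := by
          rw [lintegral_const, hA, ENNReal.mul_rpow_of_nonneg _ _ (by norm_num),
            ← ENNReal.rpow_mul, mul_comm, ENNReal.coe_rpow_of_nonneg _ (by norm_num)]
          norm_num
  -- trivial bound
  have h0 : ∀ (G : E n → ℂ), Measurable G → ∀ x, FG G x ≤
      ((A ^ (3 / 4 : ℝ) : ℝ≥0) : ℝ≥0∞) * (∫⁻ z, ‖G z‖ₑ ^ (4 : ℝ) ∂(sg n)) ^ (1 / 4 : ℝ) := by
    intro G hG x
    refine (T_le1 G _).trans ?_
    have hc : (4 / 3 : ℝ).HolderConjugate 4 := by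
      rw [Real.holderConjugate_iff]
      norm_num
    have h1 := ENNReal.lintegral_mul_le_Lp_mul_Lq (sg n) hc (f := fun _ => 1)
      (g := fun z => ‖G z‖ₑ) aemeasurable_const hG.enorm.aemeasurable
    simp only [Pi.mul_apply, one_mul, ENNReal.one_rpow, lintegral_one] at h1
    refine h1.trans (le_of_eq ?_)
    rw [hA, ENNReal.coe_rpow_of_nonneg _ (by norm_num)]
    norm_num
  refine ⟨C1 + (C2 + A ^ (3 / 4 : ℝ)) * (1 + A ^ (1 / 4 : ℝ)), ?_⟩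
  intro G M hG hM ι _ P S w f hadm x₀
  obtain ⟨hm, hd, hw, hcov, hcard⟩ := hadm
  set N4 : ℝ≥0∞ := (∫⁻ z, ‖G z‖ₑ ^ (4 : ℝ) ∂(sg n)) ^ (1 / 4 : ℝ) with hN4
  set CC : ℝ≥0 := C1 + (C2 + A ^ (3 / 4 : ℝ)) * (1 + A ^ (1 / 4 : ℝ)) with hCC
  have hCC2 : C2 ≤ CC := by
    rw [hCC]
    calc C2 ≤ C2 + A ^ (3 / 4 : ℝ) := le_self_add
      _ = (C2 + A ^ (3 / 4 : ℝ)) * 1 := (mul_one _).symm
      _ ≤ (C2 + A ^ (3 / 4 : ℝ)) * (1 + A ^ (1 / 4 : ℝ)) := by gcongr; exact le_self_add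
      _ ≤ _ := le_add_self
  have hCCA : A ^ (3 / 4 : ℝ) ≤ CC := by
    rw [hCC]
    calc A ^ (3 / 4 : ℝ) ≤ C2 + A ^ (3 / 4 : ℝ) := le_add_self
      _ = (C2 + A ^ (3 / 4 : ℝ)) * 1 := (mul_one _).symm
      _ ≤ (C2 + A ^ (3 / 4 : ℝ)) * (1 + A ^ (1 / 4 : ℝ)) := by gcongr; exact le_self_add
      _ ≤ _ := le_add_self
  have hCC1 : C1 ≤ CC := le_self_add
  have hCC2' : C2 * A ^ (1 / 4 : ℝ) ≤ CC := by
    rw [hCC]
    calc C2 * A ^ (1 / 4 : ℝ) ≤ (C2 + A ^ (3 / 4 : ℝ)) * (1 + A ^ (1 / 4 : ℝ)) := by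
          gcongr
          · exact le_self_add
          · exact le_add_self
      _ ≤ _ := le_add_self
  have hCCA' : A ^ (3 / 4 : ℝ) * A ^ (1 / 4 : ℝ) ≤ CC := by
    rw [hCC]
    calc A ^ (3 / 4 : ℝ) * A ^ (1 / 4 : ℝ) ≤ (C2 + A ^ (3 / 4 : ℝ)) * (1 + A ^ (1 / 4 : ℝ)) := by
          gcongr
          · exact le_add_self
          · exact le_add_self
      _ ≤ _ := le_add_self
  constructor
  · refine hmain P S w f hm hd hw hcov hcard (FG G) (FG_meas G hG) (CC * ENNReal.ofReal M) x₀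
      ?_ ?_ ?_
    · intro j _ _ hj
      refine (hC2 G hG ⟨M, hM⟩ (S j) hj x₀).trans ?_
      refine ENNReal.rpow_le_rpow ?_ hqv0.le
      calc (C2 : ℝ≥0∞) * N4 ≤ C2 * (((A ^ (1 / 4 : ℝ) : ℝ≥0) : ℝ≥0∞) * ENNReal.ofReal M) := by
            gcongr
            exact h4M G M hM
        _ = ((C2 * A ^ (1 / 4 : ℝ) : ℝ≥0) : ℝ≥0∞) * ENNReal.ofReal M := by
            rw [ENNReal.coe_mul, mul_assoc]
        _ ≤ CC * ENNReal.ofReal M := by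
            gcongr
    · intro j _ _ hj x
      refine (hC1 G hG M hM (S j) hj x).trans ?_
      refine ENNReal.rpow_le_rpow ?_ hr0.le
      gcongr
    · intro x
      refine (h0 G hG x).trans ?_
      calc ((A ^ (3 / 4 : ℝ) : ℝ≥0) : ℝ≥0∞) * N4 ≤ ((A ^ (3 / 4 : ℝ) : ℝ≥0) : ℝ≥0∞) *
            (((A ^ (1 / 4 : ℝ) : ℝ≥0) : ℝ≥0∞) * ENNReal.ofReal M) := by
            gcongr
            exact h4M G M hM
        _ = ((A ^ (3 / 4 : ℝ) * A ^ (1 / 4 : ℝ) : ℝ≥0) : ℝ≥0∞) * ENNReal.ofReal M := by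
            rw [ENNReal.coe_mul, mul_assoc]
        _ ≤ CC * ENNReal.ofReal M := by
            gcongr
  · intro hz
    refine hmain P S w f hm hd hw hcov hcard (FG G) (FG_meas G hG) (CC * N4) x₀ ?_ ?_ ?_
    · intro j _ _ hj
      refine (hC2 G hG ⟨M, hM⟩ (S j) hj x₀).trans ?_
      refine ENNReal.rpow_le_rpow ?_ hqv0.le
      gcongr
    · intro j hj hwj hcj
      exact absurd (hz j hj hcj) hwj
    · intro x
      refine (h0 G hG x).trans ?_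
      gcongr

end Pool.Agent.TH278.FN
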