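import Mathlib
import Pool.Agent.TH278.FN.SphC
import Pool.Agent.TH278.FN.GR
set_option autoImplicit false

/-! The sphere: unbounded densities in `L⁴`, blocks indexed by pairs. -/

namespace Pool.Agent.TH278.FN

open MeasureTheory Set Complex Filter Topology
open scoped ENNReal NNReal RealInnerProductSpace
open Pool.Agent.H789R2.FR (E sg T sg_finite sg_inv)

/-- truncation -/
noncomputable def tr {n : ℕ} (G : E n → ℂ) (N : ℕ) : E n → ℂ :=
  {z | ‖G z‖ ≤ N}.indicator G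

theorem tr_meas {n : ℕ} (G : E n → ℂ) (hG : Measurable G) (N : ℕ) : Measurable (tr G N) :=
  hG.indicator (measurableSet_le hG.norm measurable_const)

theorem tr_le {n : ℕ} (G : E n → ℂ) (N : ℕ) (z : E n) : ‖tr G N z‖ ≤ N := by
  unfold tr
  by_cases h : z ∈ {z | ‖G z‖ ≤ N}
  · rw [indicator_of_mem h]; exact h
  · rw [indicator_of_notMem h, norm_zero]; positivity

theorem tr_le' {n : ℕ} (G : E n → ℂ) (N : ℕ) (z : E n) : ‖tr G N z‖ ≤ ‖G z‖ :=
  norm_indicator_le_norm_self _ _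

theorem tr_tendsto {n : ℕ} (G : E n → ℂ) (z : E n) :
    Tendsto (fun N => tr G N z) atTop (𝓝 (G z)) := by
  apply tendsto_atTop_of_eventually_const (i₀ := ⌈‖G z‖⌉₊)
  intro N hN
  unfold tr
  rw [indicator_of_mem]
  exact Nat.ceil_le.1 hN

theorem T_tendsto {n : ℕ} (G : E n → ℂ) (hG : Measurable G) (hGi : Integrable G (sg n)) (x : E n) :
    Tendsto (fun N => T (tr G N) x) atTop (𝓝 (T G x)) := by
  unfold T
  refine tendsto_integral_of_dominated_convergence (fun z => ‖G z‖) ?_ hGi.norm ?_ ?_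
  · intro N
    have h1 : Measurable fun z : E n => (⟪x, z⟫ : ℝ) := by fun_prop
    exact ((Complex.measurable_exp.comp ((Complex.measurable_ofReal.comp h1).neg.mul_const I)).mul
      (tr_meas G hG N)).aestronglyMeasurable
  · intro N
    refine Eventually.of_forall fun z => ?_
    rw [norm_mul, exp_norm, one_mul]
    exact tr_le' G N z
  · refine Eventually.of_forall fun z => ?_
    exact (tr_tendsto G z).const_mul _

theorem fatou {n : ℕ} (G : E n → ℂ) (hG : Measurable G) (hGi : Integrable G (sg n))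
    (h : (Fin n → ℝ) → ℝ≥0∞) (hh : Measurable h) (B : ℝ≥0∞)
    (hB : ∀ N : ℕ, ∫⁻ x, FG (tr G N) x * h x ≤ B) : ∫⁻ x, FG G x * h x ≤ B := by
  have h1 : ∀ x, FG G x * h x ≤ liminf (fun N => FG (tr G N) x * h x) atTop := by
    intro x
    have h2 : Tendsto (fun N => FG (tr G N) x) atTop (𝓝 (FG G x)) :=
      (T_tendsto G hG hGi _).enorm
    by_cases hx : FG G x = 0
    · rw [hx, zero_mul]; exact zero_le
    · have h3 : Tendsto (fun N => FG (tr G N) x * h x) atTop (𝓝 (FG G x * h x)) :=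
        ENNReal.Tendsto.mul_const h2 (Or.inl hx)
      rw [h3.liminf_eq]
  calc ∫⁻ x, FG G x * h x ≤ ∫⁻ x, liminf (fun N => FG (tr G N) x * h x) atTop :=
        lintegral_mono h1
    _ ≤ liminf (fun N => ∫⁻ x, FG (tr G N) x * h x) atTop :=
        lintegral_liminf_le fun N => (FG_meas _ (tr_meas G hG N)).mul hh
    _ ≤ B := by
        refine liminf_le_of_frequently_le' ?_
        exact Frequently.of_forall fun N => hB N

/-- total weight one at each coordinate -/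
structure Weights {n : ℕ} (v : Fin n → ℝ) (w : Fin n → Fin n → ℝ) : Prop where
  single_nonneg : ∀ i, 0 ≤ v i
  pair_nonneg : ∀ i j, 0 ≤ w i j
  total : ∀ i, v i + ∑ j ∈ Finset.Ioi i, w i j + ∑ j ∈ Finset.Iio i, w j i = 1

theorem adm_of {n : ℕ} (v : Fin n → ℝ) (w : Fin n → Fin n → ℝ) (hw : Weights v w)
    (φ : Fin n → ℝ → ℝ≥0∞) (g : Fin n → Fin n → ℝ × ℝ → ℝ≥0∞) (hφ : ∀ i, Measurable (φ i))
    (hg : ∀ i j, Measurable (g i j)) : Adm (PI n) SI (wI v w) (fI φ g) where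
  meas p _ := fI_meas φ g hφ hg p
  dep p _ := fI_dep φ g p
  nonneg p _ := by
    unfold wI
    split_ifs
    · exact hw.single_nonneg _
    · exact hw.pair_nonneg _ _
  cov := cov_PI v w hw.total
  card p _ := by
    rw [card_SI]
    split_ifs <;> simp

theorem prod_fI {n : ℕ} (v : Fin n → ℝ) (w : Fin n → Fin n → ℝ) (φ : Fin n → ℝ → ℝ≥0∞)
    (g : Fin n → Fin n → ℝ × ℝ → ℝ≥0∞) (b : ℝ) (x : Fin n → ℝ) :
    ∏ p ∈ PI n, fI φ g p x ^ (wI v w p * b) = (∏ i, φ i (x i) ^ (v i * b)) *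
      ∏ i, ∏ j ∈ Finset.Ioi i, g i j (x i, x j) ^ (w i j * b) := by
  rw [prod_PI]
  congr 1
  · simp [fI, wI]
  · refine Finset.prod_congr rfl fun i _ => Finset.prod_congr rfl fun j hj => ?_
    have : i ≠ j := (Finset.mem_Ioi.1 hj).ne
    simp [fI, wI, this]

theorem prod_mg {n : ℕ} (v : Fin n → ℝ) (w : Fin n → Fin n → ℝ) (φ : Fin n → ℝ → ℝ≥0∞)
    (g : Fin n → Fin n → ℝ × ℝ → ℝ≥0∞) (hg : ∀ i j, Measurable (g i j)) (b : ℝ)
    (x₀ : Fin n → ℝ) :
    ∏ p ∈ PI n, mg (SI p) (fI φ g p) x₀ ^ (wI v w p * b) = (∏ i, (∫⁻ t, φ i t) ^ (v i * b)) *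
      ∏ i, ∏ j ∈ Finset.Ioi i, (∫⁻ z, g i j z) ^ (w i j * b) := by
  rw [prod_PI]
  congr 1
  · refine Finset.prod_congr rfl fun i _ => ?_
    have : SI (⟨i, i⟩ : Σ _ : Fin n, Fin n) = {i} := by simp [SI]
    rw [this]
    unfold mg
    rw [lmarginal_singleton]
    simp [fI, wI]
  · refine Finset.prod_congr rfl fun i _ => Finset.prod_congr rfl fun j hj => ?_
    have : i ≠ j := (Finset.mem_Ioi.1 hj).ne
    rw [mg_fI_off φ g i j this hg]
    simp [wI, this]

/-- the Finner form on the sphere for functions on the whole space -/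
theorem sphere_gen (n : ℕ) (hn : 3 ≤ n) (q : ℝ) (hq : 2 * (n : ℝ) / (n - 1) < q) :
    ∃ C : ℝ≥0, ∀ (G : E n → ℂ), Measurable G → Integrable G (sg n) →
      ∀ (v : Fin n → ℝ) (w : Fin n → Fin n → ℝ), Weights v w →
      ∀ (φ : Fin n → ℝ → ℝ≥0∞) (g : Fin n → Fin n → ℝ × ℝ → ℝ≥0∞), (∀ i, Measurable (φ i)) →
      (∀ i j, Measurable (g i j)) →
      (∀ M : ℝ, (∀ z, ‖G z‖ ≤ M) →
        ∫⁻ x : Fin n → ℝ, FG G x * ((∏ i, φ i (x i) ^ (v i * (1 - 1 / q))) *
          ∏ i, ∏ j ∈ Finset.Ioi i, g i j (x i, x j) ^ (w i j * (1 - 1 / q))) ≤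
        C * ENNReal.ofReal M * ((∏ i, (∫⁻ t, φ i t) ^ (v i * (1 - 1 / q))) *
          ∏ i, ∏ j ∈ Finset.Ioi i, (∫⁻ z, g i j z) ^ (w i j * (1 - 1 / q)))) ∧
      ((∀ i, v i = 0) →
        ∫⁻ x : Fin n → ℝ, FG G x * ((∏ i, φ i (x i) ^ (v i * (1 - 1 / q))) *
          ∏ i, ∏ j ∈ Finset.Ioi i, g i j (x i, x j) ^ (w i j * (1 - 1 / q))) ≤
        C * (∫⁻ z, ‖G z‖ₑ ^ (4 : ℝ) ∂(sg n)) ^ (1 / 4 : ℝ) *
          ((∏ i, (∫⁻ t, φ i t) ^ (v i * (1 - 1 / q))) *
          ∏ i, ∏ j ∈ Finset.Ioi i, (∫⁻ z, g i j z) ^ (w i j * (1 - 1 / q)))) := by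
  obtain ⟨C, hC⟩ := sphere_bdd n hn q hq
  refine ⟨C, ?_⟩
  intro G hG hGi v w hw φ g hφ hg
  have hadm := adm_of v w hw φ g hφ hg
  constructor
  · intro M hM
    have h1 := (hC G M hG hM (PI n) SI (wI v w) (fI φ g) hadm 0).1
    rw [prod_mg v w φ g hg] at h1
    simp_rw [prod_fI] at h1
    exact h1
  · intro hz
    refine fatou G hG hGi _ ?_ _ fun N => ?_
    · refine Measurable.mul ?_ ?_
      · exact Finset.measurable_fun_prod _ fun i _ =>
          ((hφ i).comp (measurable_pi_apply i)).pow_const _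
      · refine Finset.measurable_fun_prod _ fun i _ => Finset.measurable_fun_prod _ fun j _ => ?_
        exact ((hg i j).comp ((measurable_pi_apply i).prodMk (measurable_pi_apply j))).pow_const _
    have h1 := (hC (tr G N) N (tr_meas G hG N) (tr_le G N) (PI n) SI (wI v w) (fI φ g) hadm 0).2
      (by
        intro p _ hc
        rw [card_SI] at hc
        have hp : p.1 = p.2 := by
          by_contra h
          rw [if_neg h] at hc
          omega
        unfold wI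
        rw [if_pos hp, hz])
    rw [prod_mg v w φ g hg] at h1
    simp_rw [prod_fI] at h1
    refine h1.trans ?_
    gcongr with z
    rw [← ofReal_norm, ← ofReal_norm]
    exact ENNReal.ofReal_le_ofReal (tr_le' G N z)

end Pool.Agent.TH278.FN
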