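import Mathlib
import Pool.Agent.TH278.FN.ParC
import Pool.Agent.TH278.FN.SphD
set_option autoImplicit false

/-! The paraboloid: the Finner form for functions supported in the unit disc. -/

namespace Pool.Agent.TH278.FN

open MeasureTheory Set Complex Filter Topology
open scoped ENNReal NNReal

/-- the test function -/
noncomputable def tst {n : ℕ} (b : ℝ) (v : Fin n → ℝ) (w : Fin n → Fin n → ℝ)
    (φ : Fin n → ℝ → ℝ≥0∞) (g : Fin n → Fin n → ℝ × ℝ → ℝ≥0∞) (x : Fin n → ℝ) : ℝ≥0∞ :=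
  (∏ i, φ i (x i) ^ (v i * b)) * ∏ i, ∏ j ∈ Finset.Ioi i, g i j (x i, x j) ^ (w i j * b)

/-- its norm -/
noncomputable def tnm {n : ℕ} (b : ℝ) (v : Fin n → ℝ) (w : Fin n → Fin n → ℝ)
    (φ : Fin n → ℝ → ℝ≥0∞) (g : Fin n → Fin n → ℝ × ℝ → ℝ≥0∞) : ℝ≥0∞ :=
  (∏ i, (∫⁻ t, φ i t) ^ (v i * b)) * ∏ i, ∏ j ∈ Finset.Ioi i, (∫⁻ z, g i j z) ^ (w i j * b)

theorem tst_meas {n : ℕ} (b : ℝ) (v : Fin n → ℝ) (w : Fin n → Fin n → ℝ)
    (φ : Fin n → ℝ → ℝ≥0∞) (g : Fin n → Fin n → ℝ × ℝ → ℝ≥0∞) (hφ : ∀ i, Measurable (φ i))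
    (hg : ∀ i j, Measurable (g i j)) : Measurable (tst b v w φ g) := by
  unfold tst
  refine Measurable.mul ?_ ?_
  · exact Finset.measurable_fun_prod _ fun i _ =>
      ((hφ i).comp (measurable_pi_apply i)).pow_const _
  · refine Finset.measurable_fun_prod _ fun i _ => Finset.measurable_fun_prod _ fun j _ => ?_
    exact ((hg i j).comp ((measurable_pi_apply i).prodMk (measurable_pi_apply j))).pow_const _

theorem par_bdd (q : ℝ) (hq : 3 < q) :
    ∃ C : ℝ≥0, ∀ (f : ℝ × ℝ → ℂ) (M : ℝ), Gd f M →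
      ∀ (v : Fin 3 → ℝ) (w : Fin 3 → Fin 3 → ℝ), Weights v w →
      ∀ (φ : Fin 3 → ℝ → ℝ≥0∞) (g : Fin 3 → Fin 3 → ℝ × ℝ → ℝ≥0∞), (∀ i, Measurable (φ i)) →
      (∀ i j, Measurable (g i j)) →
      (∫⁻ x, FE f x * tst (1 - 1 / q) v w φ g x ≤
        C * ENNReal.ofReal M * tnm (1 - 1 / q) v w φ g) ∧
      (v 0 = 0 → v 1 = 0 → ∫⁻ x, FE f x * tst (1 - 1 / q) v w φ g x ≤
        C * N4 f * tnm (1 - 1 / q) v w φ g) := by
  obtain ⟨qv, r, hqv, hr, hmain⟩ := main_abs 3 (by norm_num) q (by push_cast; linarith)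
  obtain ⟨C2, hC2⟩ := pvpair qv hqv
  obtain ⟨C1, hC1⟩ := pvsingle r hr
  obtain ⟨Ct, hCt⟩ := pvtime r hr
  have hqv0 : 0 < qv := by linarith
  have hr0 : 0 < r := by linarith
  obtain ⟨A, hA⟩ : ∃ A : ℝ≥0, (A : ℝ≥0∞) = (4 : ℝ≥0∞) ^ (1 - (1 : ℝ) / 4) :=
    ⟨((4 : ℝ≥0∞) ^ (1 - (1 : ℝ) / 4)).toNNReal,
      ENNReal.coe_toNNReal (ENNReal.rpow_ne_top_of_nonneg (by norm_num) (by norm_num))⟩
  have h0 : ∀ (f : ℝ × ℝ → ℂ) (M : ℝ), Gd f M → ∀ x, FE f x ≤ A * N4 f := by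
    intro f M hf x
    rw [hA]
    exact (ex_le1 f _ _ _).trans ((low_le hf 1 one_pos (by norm_num)).trans
      (by rw [ENNReal.rpow_one]))
  refine ⟨C1 + Ct + (C2 + A) * 2 + (C2 + A), ?_⟩
  intro f M hf v w hw φ g hφ hg
  have hadm := adm_of v w hw φ g hφ hg
  obtain ⟨hm, hd, hwn, hcov, hcard⟩ := hadm
  set CC : ℝ≥0 := C1 + Ct + (C2 + A) * 2 + (C2 + A) with hCC
  have hCC1 : C1 ≤ CC := by
    rw [hCC, add_assoc, add_assoc]; exact le_self_add
  have hCCt : Ct ≤ CC := by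
    rw [hCC]
    calc Ct ≤ C1 + Ct := le_add_self
      _ ≤ C1 + Ct + (C2 + A) * 2 := le_self_add
      _ ≤ _ := le_self_add
  have hCC2' : C2 * 2 ≤ CC := by
    rw [hCC]
    calc C2 * 2 ≤ (C2 + A) * 2 := by gcongr; exact le_self_add
      _ ≤ C1 + Ct + (C2 + A) * 2 := le_add_self
      _ ≤ _ := le_self_add
  have hCCA' : A * 2 ≤ CC := by
    rw [hCC]
    calc A * 2 ≤ (C2 + A) * 2 := by gcongr; exact le_add_self
      _ ≤ C1 + Ct + (C2 + A) * 2 := le_add_self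
      _ ≤ _ := le_self_add
  have hCC2 : C2 ≤ CC := by
    rw [hCC]
    calc C2 ≤ C2 + A := le_self_add
      _ ≤ _ := le_add_self
  have hCCA : A ≤ CC := by
    rw [hCC]
    calc A ≤ C2 + A := le_add_self
      _ ≤ _ := le_add_self
  have hprod : ∀ x : Fin 3 → ℝ, ∏ i ∈ PI 3, fI φ g i x ^ (wI v w i * (1 - 1 / q)) =
      tst (1 - 1 / q) v w φ g x := fun x => prod_fI v w φ g _ x
  have hprod2 : ∏ i ∈ PI 3, mg (SI i) (fI φ g i) 0 ^ (wI v w i * (1 - 1 / q)) =
      tnm (1 - 1 / q) v w φ g := prod_mg v w φ g hg _ 0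
  constructor
  · have h1 := hmain (PI 3) SI (wI v w) (fI φ g) hm hd hwn hcov hcard (FE f)
      (FE_meas f hf.meas) (CC * ENNReal.ofReal M) 0
      (by
        intro j _ _ hj
        refine (hC2 f M hf (SI j) hj 0).trans ?_
        refine ENNReal.rpow_le_rpow ?_ hqv0.le
        calc (C2 : ℝ≥0∞) * N4 f ≤ C2 * (2 * ENNReal.ofReal M) := by
              gcongr
              exact N4_le hf
          _ = ((C2 * 2 : ℝ≥0) : ℝ≥0∞) * ENNReal.ofReal M := by
              rw [ENNReal.coe_mul, mul_assoc]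
              norm_num
          _ ≤ CC * ENNReal.ofReal M := by
              gcongr)
      (by
        intro j _ _ hj x
        refine (hC1 f M hf (SI j) hj x).trans ?_
        refine ENNReal.rpow_le_rpow ?_ hr0.le
        gcongr)
      (by
        intro x
        refine (h0 f M hf x).trans ?_
        calc (A : ℝ≥0∞) * N4 f ≤ A * (2 * ENNReal.ofReal M) := by
              gcongr
              exact N4_le hf
          _ = ((A * 2 : ℝ≥0) : ℝ≥0∞) * ENNReal.ofReal M := by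
              rw [ENNReal.coe_mul, mul_assoc]
              norm_num
          _ ≤ CC * ENNReal.ofReal M := by
              gcongr)
    simp_rw [hprod] at h1
    rw [hprod2] at h1
    exact h1
  · intro hv0 hv1
    have h1 := hmain (PI 3) SI (wI v w) (fI φ g) hm hd hwn hcov hcard (FE f)
      (FE_meas f hf.meas) (CC * N4 f) 0
      (by
        intro j _ _ hj
        refine (hC2 f M hf (SI j) hj 0).trans ?_
        refine ENNReal.rpow_le_rpow ?_ hqv0.le
        gcongr)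
      (by
        intro j _ hwj hj x
        have hj2 : j.1 = j.2 := by
          rw [card_SI] at hj
          by_contra h
          rw [if_neg h] at hj
          omega
        have hj3 : SI j = {j.1} := by
          unfold SI
          rw [← hj2]
          simp
        have hwj2 : v j.1 ≠ 0 := by
          unfold wI at hwj
          rwa [if_pos hj2] at hwj
        have hj4 : j.1 = 2 := by
          have : ∀ i : Fin 3, i = 0 ∨ i = 1 ∨ i = 2 := by decide
          rcases this j.1 with h | h | h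
          · rw [h] at hwj2; exact absurd hv0 hwj2
          · rw [h] at hwj2; exact absurd hv1 hwj2
          · exact h
        rw [hj3, hj4]
        refine (hCt f M hf x).trans ?_
        refine ENNReal.rpow_le_rpow ?_ hr0.le
        gcongr)
      (by
        intro x
        refine (h0 f M hf x).trans ?_
        gcongr)
    simp_rw [hprod] at h1
    rw [hprod2] at h1
    exact h1

/-! ### unbounded functions -/

/-- truncation -/
noncomputable def trp (f : ℝ × ℝ → ℂ) (N : ℕ) : ℝ × ℝ → ℂ := {z | ‖f z‖ ≤ N}.indicator f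

theorem trp_gd (f : ℝ × ℝ → ℂ) (hf : Measurable f)
    (hs : ∀ x : ℝ × ℝ, 1 ≤ x.1 ^ 2 + x.2 ^ 2 → f x = 0) (N : ℕ) : Gd (trp f N) N where
  meas := hf.indicator (measurableSet_le hf.norm measurable_const)
  bound z := by
    unfold trp
    by_cases h : z ∈ {z | ‖f z‖ ≤ N}
    · rw [indicator_of_mem h]; exact h
    · rw [indicator_of_notMem h, norm_zero]; positivity
  supp x hx := by
    unfold trp
    by_cases h : x ∈ {z | ‖f z‖ ≤ N}
    · rw [indicator_of_mem h]; exact hs x hx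
    · rw [indicator_of_notMem h]

theorem trp_le (f : ℝ × ℝ → ℂ) (N : ℕ) (z : ℝ × ℝ) : ‖trp f N z‖ ≤ ‖f z‖ :=
  norm_indicator_le_norm_self _ _

theorem trp_tendsto (f : ℝ × ℝ → ℂ) (z : ℝ × ℝ) :
    Tendsto (fun N => trp f N z) atTop (𝓝 (f z)) := by
  apply tendsto_atTop_of_eventually_const (i₀ := ⌈‖f z‖⌉₊)
  intro N hN
  unfold trp
  rw [indicator_of_mem]
  exact Nat.ceil_le.1 hN

theorem ex_tendsto (f : ℝ × ℝ → ℂ) (hf : Measurable f)
    (hs : ∀ x : ℝ × ℝ, 1 ≤ x.1 ^ 2 + x.2 ^ 2 → f x = 0) (hfi : Integrable f) (a b t : ℝ) :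
    Tendsto (fun N => ex (trp f N) a b t) atTop (𝓝 (ex f a b t)) := by
  unfold ex
  refine tendsto_integral_of_dominated_convergence (fun z => ‖f z‖) ?_ hfi.norm ?_ ?_
  · intro N
    have h1 : Measurable fun x : ℝ × ℝ => (x.1 * a + x.2 * b + (x.1 ^ 2 + x.2 ^ 2) * t : ℝ) := by
      fun_prop
    exact ((Complex.measurable_exp.comp ((Complex.measurable_ofReal.comp h1).const_mul I).neg).mul
      (trp_gd f hf hs N).meas).aestronglyMeasurable
  · intro N
    refine Eventually.of_forall fun z => ?_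
    rw [norm_mul, Pool.Agent.TH89.J1620.ph_norm, one_mul]
    exact trp_le f N z
  · refine Eventually.of_forall fun z => ?_
    exact (trp_tendsto f z).const_mul _

theorem fatou_par (f : ℝ × ℝ → ℂ) (hf : Measurable f)
    (hs : ∀ x : ℝ × ℝ, 1 ≤ x.1 ^ 2 + x.2 ^ 2 → f x = 0) (hfi : Integrable f)
    (h : (Fin 3 → ℝ) → ℝ≥0∞) (hh : Measurable h) (B : ℝ≥0∞)
    (hB : ∀ N : ℕ, ∫⁻ x, FE (trp f N) x * h x ≤ B) : ∫⁻ x, FE f x * h x ≤ B := by
  have h1 : ∀ x, FE f x * h x ≤ liminf (fun N => FE (trp f N) x * h x) atTop := by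
    intro x
    have h2 : Tendsto (fun N => FE (trp f N) x) atTop (𝓝 (FE f x)) :=
      (ex_tendsto f hf hs hfi _ _ _).enorm
    by_cases hx : FE f x = 0
    · rw [hx, zero_mul]; exact zero_le
    · have h3 : Tendsto (fun N => FE (trp f N) x * h x) atTop (𝓝 (FE f x * h x)) :=
        ENNReal.Tendsto.mul_const h2 (Or.inl hx)
      rw [h3.liminf_eq]
  calc ∫⁻ x, FE f x * h x ≤ ∫⁻ x, liminf (fun N => FE (trp f N) x * h x) atTop :=
        lintegral_mono h1
    _ ≤ liminf (fun N => ∫⁻ x, FE (trp f N) x * h x) atTop :=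
        lintegral_liminf_le fun N => (FE_meas _ (trp_gd f hf hs N).meas).mul hh
    _ ≤ B := by
        refine liminf_le_of_frequently_le' ?_
        exact Frequently.of_forall fun N => hB N

theorem par_gen (q : ℝ) (hq : 3 < q) :
    ∃ C : ℝ≥0, ∀ (f : ℝ × ℝ → ℂ), Measurable f →
      (∀ x : ℝ × ℝ, 1 ≤ x.1 ^ 2 + x.2 ^ 2 → f x = 0) → Integrable f →
      ∀ (v : Fin 3 → ℝ) (w : Fin 3 → Fin 3 → ℝ), Weights v w →
      ∀ (φ : Fin 3 → ℝ → ℝ≥0∞) (g : Fin 3 → Fin 3 → ℝ × ℝ → ℝ≥0∞), (∀ i, Measurable (φ i)) →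
      (∀ i j, Measurable (g i j)) →
      (∀ M : ℝ, (∀ z, ‖f z‖ ≤ M) → ∫⁻ x, FE f x * tst (1 - 1 / q) v w φ g x ≤
        C * ENNReal.ofReal M * tnm (1 - 1 / q) v w φ g) ∧
      (v 0 = 0 → v 1 = 0 → ∫⁻ x, FE f x * tst (1 - 1 / q) v w φ g x ≤
        C * N4 f * tnm (1 - 1 / q) v w φ g) := by
  obtain ⟨C, hC⟩ := par_bdd q hq
  refine ⟨C, ?_⟩
  intro f hf hs hfi v w hw φ g hφ hg
  constructor
  · intro M hM
    exact (hC f M ⟨hf, hM, hs⟩ v w hw φ g hφ hg).1
  · intro hv0 hv1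
    refine fatou_par f hf hs hfi _ (tst_meas _ v w φ g hφ hg) _ fun N => ?_
    refine ((hC (trp f N) N (trp_gd f hf hs N) v w hw φ g hφ hg).2 hv0 hv1).trans ?_
    gcongr
    unfold N4
    gcongr with z
    rw [← ofReal_norm, ← ofReal_norm]
    exact ENNReal.ofReal_le_ofReal (trp_le f N z)

end Pool.Agent.TH278.FN
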