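import Mathlib
import Pool.Agent.TH278.FN.ParD
set_option autoImplicit false

/-! The paraboloid: changes of variables. -/

namespace Pool.Agent.TH278.FN

open MeasureTheory Set Complex Filter Topology
open scoped ENNReal NNReal RealInnerProductSpace

/-- the plane -/
abbrev E2 := EuclideanSpace ℝ (Fin 2)

/-- the point of `E2` with coordinates `y` -/
noncomputable def P2 : (ℝ × ℝ) ≃ᵐ E2 :=
  MeasurableEquiv.finTwoArrow.symm.trans (MeasurableEquiv.toLp 2 (Fin 2 → ℝ))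

theorem P2_mp : MeasurePreserving P2 volume volume :=
  (volume_preserving_finTwoArrow ℝ).symm.trans (PiLp.volume_preserving_toLp (Fin 2))

theorem P2_0 (y : ℝ × ℝ) : P2 y 0 = y.1 := rfl
theorem P2_1 (y : ℝ × ℝ) : P2 y 1 = y.2 := rfl

theorem P2_norm (y : ℝ × ℝ) : ‖P2 y‖ ^ 2 = y.1 ^ 2 + y.2 ^ 2 := by
  rw [EuclideanSpace.norm_sq_eq, Fin.sum_univ_two, P2_0, P2_1]
  simp

/-- the coordinates in the frame `e`, `u` -/
noncomputable def co (e : OrthonormalBasis (Fin 2) ℝ E2) (u : E2) (ξ : E2 × ℝ) : Fin 3 → ℝ :=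
  ![⟪e 0, ξ.1 + (2 * ξ.2) • u⟫, ⟪e 1, ξ.1 + (2 * ξ.2) • u⟫, ξ.2]

/-- the function in the new frame -/
noncomputable def fr (e : OrthonormalBasis (Fin 2) ℝ E2) (u : E2) (h : E2 → ℂ) (y : ℝ × ℝ) : ℂ :=
  h (u + e.repr.symm (P2 y))

/-- the map `y ↦ u + R y` preserves measure -/
theorem fr_mp (e : OrthonormalBasis (Fin 2) ℝ E2) (u : E2) :
    MeasurePreserving (fun y : ℝ × ℝ => u + e.repr.symm (P2 y)) volume volume :=
  (measurePreserving_add_left volume u).comp (e.repr.symm.measurePreserving.comp P2_mp)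

theorem fr_emb (e : OrthonormalBasis (Fin 2) ℝ E2) (u : E2) :
    MeasurableEmbedding (fun y : ℝ × ℝ => u + e.repr.symm (P2 y)) :=
  (measurableEmbedding_addLeft u).comp
    (e.repr.symm.toHomeomorph.measurableEmbedding.comp P2.measurableEmbedding)

/-- phase -/
theorem phase_eq (e : OrthonormalBasis (Fin 2) ℝ E2) (u : E2) (ξ : E2 × ℝ) (y : ℝ × ℝ) :
    ⟪u + e.repr.symm (P2 y), ξ.1⟫ + ‖u + e.repr.symm (P2 y)‖ ^ 2 * ξ.2 =
      (⟪u, ξ.1⟫ + ‖u‖ ^ 2 * ξ.2) +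
        (y.1 * co e u ξ 0 + y.2 * co e u ξ 1 + (y.1 ^ 2 + y.2 ^ 2) * co e u ξ 2) := by
  have h1 : e.repr.symm (P2 y) = y.1 • e 0 + y.2 • e 1 := by
    rw [← e.sum_repr_symm, Fin.sum_univ_two, P2_0, P2_1]
  have h2 : ‖e.repr.symm (P2 y)‖ ^ 2 = y.1 ^ 2 + y.2 ^ 2 := by
    rw [LinearIsometryEquiv.norm_map, P2_norm]
  have h3 : co e u ξ 0 = ⟪e 0, ξ.1⟫ + 2 * ξ.2 * ⟪e 0, u⟫ := by
    simp only [co, Matrix.cons_val_zero, inner_add_right, real_inner_smul_right]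
  have h4 : co e u ξ 1 = ⟪e 1, ξ.1⟫ + 2 * ξ.2 * ⟪e 1, u⟫ := by
    simp only [co, Matrix.cons_val_one, Matrix.cons_val_zero, inner_add_right,
      real_inner_smul_right]
  have h5 : co e u ξ 2 = ξ.2 := rfl
  have h6 : ⟪u, e.repr.symm (P2 y)⟫ = y.1 * ⟪e 0, u⟫ + y.2 * ⟪e 1, u⟫ := by
    rw [h1, inner_add_right, real_inner_smul_right, real_inner_smul_right, real_inner_comm u,
      real_inner_comm u]
  have h7 : ⟪e.repr.symm (P2 y), ξ.1⟫ = y.1 * ⟪e 0, ξ.1⟫ + y.2 * ⟪e 1, ξ.1⟫ := by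
    rw [h1, inner_add_left, real_inner_smul_left, real_inner_smul_left]
  rw [inner_add_left, norm_add_sq_real, h2, h3, h4, h5, h6, h7]
  ring

theorem ex_fr (e : OrthonormalBasis (Fin 2) ℝ E2) (u : E2) (h : E2 → ℂ) (ξ : E2 × ℝ) :
    ‖∫ x : E2, cexp (-(I * ((⟪x, ξ.1⟫ + ‖x‖ ^ 2 * ξ.2 : ℝ) : ℂ))) * h x‖ₑ =
      FE (fr e u h) (co e u ξ) := by
  unfold FE ex
  rw [← (fr_mp e u).integral_comp (fr_emb e u)
    (fun x : E2 => cexp (-(I * ((⟪x, ξ.1⟫ + ‖x‖ ^ 2 * ξ.2 : ℝ) : ℂ))) * h x)]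
  have h1 : ∀ y : ℝ × ℝ,
      cexp (-(I * ((⟪u + e.repr.symm (P2 y), ξ.1⟫ + ‖u + e.repr.symm (P2 y)‖ ^ 2 * ξ.2 : ℝ) : ℂ))) *
        h (u + e.repr.symm (P2 y)) =
      cexp (-(I * ((⟪u, ξ.1⟫ + ‖u‖ ^ 2 * ξ.2 : ℝ) : ℂ))) *
        (cexp (-(I * ((y.1 * co e u ξ 0 + y.2 * co e u ξ 1 +
          (y.1 ^ 2 + y.2 ^ 2) * co e u ξ 2 : ℝ) : ℂ))) * fr e u h y) := by
    intro y
    rw [phase_eq, ← mul_assoc, ← Complex.exp_add]
    unfold fr
    congr 2
    push_cast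
    ring
  simp_rw [h1]
  rw [integral_const_mul, enorm_mul]
  have : ‖cexp (-(I * ((⟪u, ξ.1⟫ + ‖u‖ ^ 2 * ξ.2 : ℝ) : ℂ)))‖ₑ = 1 := by
    rw [← ofReal_norm, Pool.Agent.TH89.J1620.ph_norm, ENNReal.ofReal_one]
  rw [this, one_mul]

theorem lint3 (H : (Fin 3 → ℝ) → ℝ≥0∞) (hH : Measurable H) :
    ∫⁻ x, H x = ∫⁻ t : ℝ, ∫⁻ y : ℝ × ℝ, H (pt3 0 1 y.1 y.2 t) := by
  have h1 := mg_split ({0, 1} : Finset (Fin 3)) hH 0
  have h2 := mg3 0 1 2 (by decide) (by decide) (by decide) H hH 1 0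
  simp only [ENNReal.rpow_one] at h2
  have hm : Measurable fun q : (ℝ × ℝ) × ℝ => H (pt3 0 1 q.1.1 q.1.2 q.2) := by
    refine hH.comp ?_
    rw [measurable_pi_iff]
    intro i
    have : ∀ i : Fin 3, i = 0 ∨ i = 1 ∨ i = 2 := by decide
    rcases this i with rfl | rfl | rfl
    · simp only [pt3, if_true]; fun_prop
    · simp only [pt3, if_true]
      have : ((1 : Fin 3) = 0) = False := by decide
      simp only [this, if_false]
      fun_prop
    · simp only [pt3]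
      have h5 : ((2 : Fin 3) = 0) = False := by decide
      have h6 : ((2 : Fin 3) = 1) = False := by decide
      simp only [h5, h6, if_false]
      fun_prop
  rw [h1, h2]
  have hm2 : Measurable fun y : ℝ × ℝ => ∫⁻ c : ℝ, H (pt3 0 1 y.1 y.2 c) :=
    hm.lintegral_prod_right'
  have h3 : ∫⁻ a : ℝ, ∫⁻ b : ℝ, ∫⁻ c : ℝ, H (pt3 0 1 a b c) =
      ∫⁻ y : ℝ × ℝ, ∫⁻ c : ℝ, H (pt3 0 1 y.1 y.2 c) := by
    rw [Measure.volume_eq_prod, lintegral_prod _ hm2.aemeasurable]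
  rw [h3, lintegral_lintegral_swap]
  exact hm.aemeasurable

theorem co_int (e : OrthonormalBasis (Fin 2) ℝ E2) (u : E2) (H : (Fin 3 → ℝ) → ℝ≥0∞)
    (hH : Measurable H) : ∫⁻ ξ : E2 × ℝ, H (co e u ξ) = ∫⁻ x, H x := by
  have hco : Measurable (co e u) := by
    rw [measurable_pi_iff]
    intro i
    have : ∀ i : Fin 3, i = 0 ∨ i = 1 ∨ i = 2 := by decide
    rcases this i with rfl | rfl | rfl
    · show Measurable fun ξ : E2 × ℝ => (⟪e 0, ξ.1 + (2 * ξ.2) • u⟫ : ℝ)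
      fun_prop
    · show Measurable fun ξ : E2 × ℝ => (⟪e 1, ξ.1 + (2 * ξ.2) • u⟫ : ℝ)
      fun_prop
    · show Measurable fun ξ : E2 × ℝ => ξ.2
      fun_prop
  have hm : Measurable fun ξ : E2 × ℝ => H (co e u ξ) := hH.comp hco
  rw [lint3 H hH, Measure.volume_eq_prod, lintegral_prod_symm _ hm.aemeasurable]
  refine lintegral_congr fun t => ?_
  -- fix t
  set K : E2 → ℝ≥0∞ := fun z => H (pt3 0 1 (z 0) (z 1) t) with hK
  have h1 : ∀ ξ' : E2, H (co e u (ξ', t)) = K (e.repr (ξ' + (2 * t) • u)) := by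
    intro ξ'
    simp only [hK]
    congr 1
    ext i
    have : ∀ i : Fin 3, i = 0 ∨ i = 1 ∨ i = 2 := by decide
    rcases this i with rfl | rfl | rfl
    · simp [co, pt3, e.repr_apply_apply, inner_add_right, real_inner_smul_right]
    · simp [co, pt3, e.repr_apply_apply, inner_add_right, real_inner_smul_right]
    · simp [co, pt3]
  simp_rw [h1]
  have hKm : Measurable K := by
    refine hH.comp ?_
    rw [measurable_pi_iff]
    intro i
    have : ∀ i : Fin 3, i = 0 ∨ i = 1 ∨ i = 2 := by decide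
    rcases this i with rfl | rfl | rfl
    · simp only [pt3, if_true]; fun_prop
    · simp only [pt3, if_true]
      have : ((1 : Fin 3) = 0) = False := by decide
      simp only [this, if_false]
      fun_prop
    · simp only [pt3]
      have h5 : ((2 : Fin 3) = 0) = False := by decide
      have h6 : ((2 : Fin 3) = 1) = False := by decide
      simp only [h5, h6, if_false]
      fun_prop
  have h2 : ∫⁻ ξ' : E2, K (e.repr (ξ' + (2 * t) • u)) = ∫⁻ z : E2, K z := by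
    have h3 := (e.repr.measurePreserving.comp
      (measurePreserving_add_right (volume : Measure E2) ((2 * t) • u))).lintegral_comp hKm
    exact h3
  rw [h2, ← P2_mp.lintegral_comp hKm]
  rfl

end Pool.Agent.TH278.FN
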